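import Pool.Agent.P.MP_6e34ef_nt.SE.Count
import Pool.Agent.P.MP_6e34ef_nt.SY.Siegel

set_option autoImplicit false

namespace Pool.Agent.P.MP_6e34ef_nt.SE

open Finset

theorem aux_gen {n Z Y ω : ℕ} (hω : 1 ≤ ω) (hn : n ≤ Z)
    (hr : 2 * ω * (Om n Y).card ≤ (Om n Z).card) (κ : (Fin n → ℕ) → ℕ)
    (hκ : ∀ z ∈ Om n Z, κ z ≤ Z) :
    ∃ c : (Fin n → ℕ) → ℤ, (∃ z ∈ Om n Z, c z ≠ 0) ∧ ∑ z ∈ Om n Z, |c z| ≤ 2 ^ (6 * Z) ∧
      ∀ b < ω, ∀ a ∈ Om n Y,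
        ∑ z ∈ Om n Z, c z * (bin z a : ℤ) * ((κ z).choose b : ℤ) = 0 := by
  classical
  have hY : 0 < (Om n Y).card := card_pos.2 ⟨0, mem_Om.2 (by simp)⟩
  have hρ : Fintype.card (Fin ω × {a // a ∈ Om n Y}) = ω * (Om n Y).card := by simp
  have hc : Fintype.card {z // z ∈ Om n Z} = (Om n Z).card := by simp
  have hpos : 0 < ω * (Om n Y).card := Nat.mul_pos hω hY
  have hr' : 2 * (ω * (Om n Y).card) ≤ (Om n Z).card := by rw [← mul_assoc]; exact hr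
  obtain ⟨t, ht0, ht, hb⟩ := SY.siegel_int
    (fun (i : Fin ω × {a // a ∈ Om n Y}) (x : {z // z ∈ Om n Z}) =>
      (bin x.1 i.2.1 : ℤ) * ((κ x.1).choose i.1 : ℤ)) (2 ^ (2 * Z)) (one_le_pow₀ one_le_two)
    (fun i x => by
      have h1 : bin x.1 i.2.1 ≤ 2 ^ Z := bin_le x.2 _
      have h2 : (κ x.1).choose i.1 ≤ 2 ^ Z :=
        (Nat.choose_le_two_pow _ _).trans (Nat.pow_le_pow_right two_pos (hκ _ x.2))
      have h3 : bin x.1 i.2.1 * (κ x.1).choose i.1 ≤ 2 ^ (2 * Z) := by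
        rw [two_mul, pow_add]; exact Nat.mul_le_mul h1 h2
      have h4 : ((bin x.1 i.2.1 * (κ x.1).choose i.1 : ℕ) : ℝ) ≤ ((2 ^ (2 * Z) : ℕ) : ℝ) := by
        exact_mod_cast h3
      push_cast at h4 ⊢
      rw [abs_of_nonneg (by positivity)]
      exact h4)
    1 ((Om n Z).card - ω * (Om n Y).card) (by rw [hρ, hc]; omega) (by rw [hρ]; omega)
    (by rw [hρ]; exact hpos) (by omega)
  have hcard : (Om n Z).card ≤ 2 ^ (2 * Z) := card_Om_le hn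
  have hb' : ∀ x, |t x| ≤ 2 ^ (4 * Z) := fun x => by
    have h1 := hb x
    rw [pow_one, hc] at h1
    have h2 : ((Om n Z).card : ℝ) ≤ 2 ^ (2 * Z) := by exact_mod_cast hcard
    have h3 : |(t x : ℝ)| ≤ 2 ^ (4 * Z) := by
      refine h1.trans ?_
      rw [show 4 * Z = 2 * Z + 2 * Z by ring, pow_add]
      exact mul_le_mul_of_nonneg_right h2 (by positivity)
    exact_mod_cast h3
  refine ⟨fun z => if h : z ∈ Om n Z then t ⟨z, h⟩ else 0, ?_, ?_, fun b hbω a ha => ?_⟩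
  · obtain ⟨x, hx⟩ := Function.ne_iff.1 ht0
    exact ⟨x.1, x.2, by simpa [x.2] using hx⟩
  · calc _ ≤ ∑ _z ∈ Om n Z, (2 : ℤ) ^ (4 * Z) := sum_le_sum fun z hz => by
          simp only [hz, dif_pos]; exact hb' _
      _ = ((Om n Z).card : ℤ) * 2 ^ (4 * Z) := by rw [sum_const, nsmul_eq_mul]
      _ ≤ 2 ^ (2 * Z) * 2 ^ (4 * Z) :=
          mul_le_mul_of_nonneg_right (by exact_mod_cast hcard) (by positivity)
      _ = 2 ^ (6 * Z) := by rw [← pow_add]; congr 1; ring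
  · rw [← ht (⟨b, hbω⟩, ⟨a, ha⟩), ← sum_coe_sort (Om n Z)]
    refine sum_congr rfl fun x _ => ?_
    simp only [x.2, dif_pos]
    ring

theorem aux (ω V : ℕ) (hω : 1 ≤ ω) (hV : 2 * ω * (ω + 2) ≤ V)
    (κ : (Fin (2 * ω * (ω + 2)) → ℕ) → ℕ)
    (hκ : ∀ z ∈ Om (2 * ω * (ω + 2)) ((ω + 2) * V), κ z ≤ (ω + 2) * V) :
    ∃ c : (Fin (2 * ω * (ω + 2)) → ℕ) → ℤ,
      (∃ z ∈ Om (2 * ω * (ω + 2)) ((ω + 2) * V), c z ≠ 0) ∧
      ∑ z ∈ Om (2 * ω * (ω + 2)) ((ω + 2) * V), |c z| ≤ 2 ^ (6 * ((ω + 2) * V)) ∧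
      Orth ((ω + 2) * V) ω V V κ c := by
  obtain ⟨c, h1, h2, h3⟩ := aux_gen hω (hV.trans (Nat.le_mul_of_pos_left V (by omega)))
    (card_ratio ω V hV) κ hκ
  refine ⟨c, h1, h2, fun b hb a ha => h3 b hb a (mem_Om.2 ?_)⟩
  have : V * (ω - b) ≤ V * ω := Nat.mul_le_mul_left _ (Nat.sub_le _ _)
  have h4 : (ω + 1) * V = V * ω + V := by ring
  omega

end Pool.Agent.P.MP_6e34ef_nt.SE
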