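import Pool.Agent.P.MP_6e34ef_nt.SE.Defs

set_option autoImplicit false

namespace Pool.Agent.P.MP_6e34ef_nt.SE

open Finset

theorem close_choose_mul (z i a : ℕ) : z.choose i * z.choose a =
    ∑ pq ∈ antidiagonal a, i.choose pq.1 * (i + pq.2).choose i * z.choose (i + pq.2) := by
  rcases lt_or_ge z i with h | h
  · rw [Nat.choose_eq_zero_of_lt h, zero_mul]
    refine (Finset.sum_eq_zero fun pq _ => ?_).symm
    rw [Nat.choose_eq_zero_of_lt (show z < i + pq.2 by omega), mul_zero]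
  · have h1 : z.choose a = (i + (z - i)).choose a := by congr 1; omega
    rw [h1, Nat.add_choose_eq, Finset.mul_sum]
    refine Finset.sum_congr rfl fun pq _ => ?_
    have h2 := Nat.choose_mul (n := z) (k := i + pq.2) (s := i) (by omega)
    rw [Nat.add_sub_cancel_left] at h2
    calc z.choose i * (i.choose pq.1 * (z - i).choose pq.2)
        = i.choose pq.1 * (z.choose i * (z - i).choose pq.2) := by ring
      _ = i.choose pq.1 * (z.choose (i + pq.2) * (i + pq.2).choose i) := by rw [h2]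
      _ = _ := by ring

theorem close_bin_mul {n : ℕ} (z a a' : Fin n → ℕ) : bin z a * bin z a' =
    ∑ f ∈ Fintype.piFinset fun i => antidiagonal (a' i),
      (∏ i, (a i).choose (f i).1 * (a i + (f i).2).choose (a i)) *
        bin z fun i => a i + (f i).2 := by
  unfold bin
  rw [← prod_mul_distrib]
  simp only [close_choose_mul]
  rw [prod_univ_sum]
  exact sum_congr rfl fun f _ => prod_mul_distrib

theorem orth_mul {n Z ω V W : ℕ} {κ : (Fin n → ℕ) → ℕ} {c : (Fin n → ℕ) → ℤ}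
    (h : Orth Z ω V W κ c) (a : Fin n → ℕ) (ha : ∑ i, a i ≤ W) :
    Orth Z ω V 0 κ (fun z => c z * (bin z a : ℤ)) := by
  intro b hb a' ha'
  have h1 : ∀ z : Fin n → ℕ, c z * (bin z a : ℤ) * (bin z a' : ℤ) * ((κ z).choose b : ℤ) =
      ∑ f ∈ Fintype.piFinset fun i => antidiagonal (a' i),
        ((∏ i, (a i).choose (f i).1 * (a i + (f i).2).choose (a i) : ℕ) : ℤ) *
          (c z * (bin z (fun i => a i + (f i).2) : ℤ) * ((κ z).choose b : ℤ)) := by
    intro z
    rw [mul_assoc (c z), ← Nat.cast_mul, close_bin_mul, Nat.cast_sum, mul_sum, sum_mul]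
    refine sum_congr rfl fun f _ => ?_
    rw [Nat.cast_mul]
    ring
  simp only [h1]
  rw [sum_comm]
  refine sum_eq_zero fun f hf => ?_
  rw [← mul_sum, h b hb, mul_zero]
  have h2 : ∑ i, (f i).2 ≤ ∑ i, a' i := by
    refine sum_le_sum fun i _ => ?_
    have := mem_antidiagonal.1 (Fintype.mem_piFinset.1 hf i)
    omega
  rw [sum_add_distrib]
  omega


/-- Greedy choice of integers without a small linear relation. -/
theorem select (C n : ℕ) (D : Finset ℕ) (hD : (2 * C + 1) ^ n ≤ D.card) :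
    ∃ d : Fin n → ℕ, (∀ i, d i ∈ D) ∧
      ∀ m : Fin n → ℤ, (∀ i, |m i| ≤ C) → m ≠ 0 → ∑ i, m i * (d i : ℤ) ≠ 0 := by
  classical
  induction n with
  | zero =>
    refine ⟨fun i => i.elim0, fun i => i.elim0, fun m _ hm => ?_⟩
    exact absurd (funext fun i => i.elim0) hm
  | succ n ih =>
    have hle : (2 * C + 1) ^ n ≤ D.card :=
      le_trans (Nat.pow_le_pow_right (by omega) (Nat.le_succ n)) hD
    obtain ⟨d, hd, hrel⟩ := ih hle
    set I : Finset ℤ := Icc (-(C : ℤ)) C with hI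
    have hIc : I.card = 2 * C + 1 := by
      rw [hI, Int.card_Icc]; omega
    have hmem : ∀ k : ℤ, |k| ≤ C → k ∈ I := fun k hk => by
      rw [hI, mem_Icc]; exact abs_le.1 hk
    set bad : Finset ℕ := ((Fintype.piFinset fun _ : Fin n => I) ×ˢ I.erase 0).image
      (fun p => (-(∑ i, p.1 i * (d i : ℤ)) / p.2).toNat) with hbad
    have hcard : bad.card < D.card := by
      have h1 : bad.card ≤ (2 * C + 1) ^ n * (2 * C) := by
        refine card_image_le.trans ?_
        rw [card_product, Fintype.card_piFinset, card_erase_of_mem (hmem 0 (by simp))]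
        simp [hIc]
      have h2 : (2 * C + 1) ^ n * (2 * C) < (2 * C + 1) ^ (n + 1) := by
        rw [pow_succ]
        exact Nat.mul_lt_mul_of_pos_left (Nat.lt_succ_self _) (by positivity)
      omega
    obtain ⟨x, hxD, hxb⟩ := exists_mem_notMem_of_card_lt_card hcard
    refine ⟨Fin.cons x d, fun i => ?_, fun m hm hm0 hs => ?_⟩
    · refine Fin.cases ?_ (fun j => ?_) i
      · simpa using hxD
      · simpa using hd j
    · rw [Fin.sum_univ_succ] at hs
      simp only [Fin.cons_zero, Fin.cons_succ] at hs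
      by_cases h0 : m 0 = 0
      · rw [h0, zero_mul, zero_add] at hs
        refine hrel (fun i => m i.succ) (fun i => hm _) (fun h => hm0 ?_) hs
        funext i
        refine Fin.cases ?_ (fun j => ?_) i
        · exact h0
        · exact congrFun h j
      · apply hxb
        rw [hbad, mem_image]
        refine ⟨(fun i => m i.succ, m 0), ?_, ?_⟩
        · rw [mem_product, Fintype.mem_piFinset]
          exact ⟨fun i => hmem _ (hm _), mem_erase.2 ⟨h0, hmem _ (hm _)⟩⟩
        · have e : -(∑ i : Fin n, m i.succ * (d i : ℤ)) = m 0 * (x : ℤ) := by linarith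
          simp only [e]
          rw [Int.mul_ediv_cancel_left _ h0]
          simp

theorem nonRes_of {n C1 Z J : ℕ} (d : Fin n → ℕ) (γ : ℝ) (hγ : 0 ≤ γ) (hd : ∀ i, d i ≤ J)
    (hrel : ∀ m : Fin n → ℤ, (∀ i, |m i| ≤ C1) → m ≠ 0 → ∑ i, m i * (d i : ℤ) ≠ 0)
    (h1 : (C1 : ℝ) ≤ Z * γ) (h2 : 2 * (n : ℝ) * C1 * (J * γ) ≤ 1) (h3 : 2 * C1 ≤ Z) :
    NonRes C1 Z (fun i => (d i : ℝ) * γ) := by
  intro m m' hm hne
  have hZ : (0 : ℝ) ≤ Z := Nat.cast_nonneg _
  have h3' : 2 * (C1 : ℝ) ≤ Z := by exact_mod_cast h3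
  set σ : ℤ := ∑ i, m i * (d i : ℤ) with hσ
  have hs : ∑ i, (m i : ℝ) * ((d i : ℝ) * γ) = (σ : ℝ) * γ := by
    rw [hσ]; push_cast; rw [sum_mul]
    exact sum_congr rfl fun i _ => by ring
  have hb : |(σ : ℝ)| ≤ (n : ℝ) * C1 * J := by
    rw [hσ]; push_cast
    refine (abs_sum_le_sum_abs _ _).trans ?_
    calc ∑ i, |(m i : ℝ) * (d i : ℝ)| ≤ ∑ _i : Fin n, (C1 : ℝ) * J := by
          refine sum_le_sum fun i _ => ?_
          rw [abs_mul, Nat.abs_cast]
          have a1 : |(m i : ℝ)| ≤ C1 := by exact_mod_cast hm i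
          have a2 : (d i : ℝ) ≤ J := by exact_mod_cast hd i
          exact mul_le_mul a1 a2 (Nat.cast_nonneg _) (Nat.cast_nonneg _)
      _ = (n : ℝ) * C1 * J := by simp [mul_assoc]
  have hhalf : |(σ : ℝ) * γ| ≤ 1 / 2 := by
    rw [abs_mul, abs_of_nonneg hγ]
    have := mul_le_mul_of_nonneg_right hb hγ
    nlinarith
  simp only [hs]
  by_cases hm' : m' = 0
  · have hm0 : m ≠ 0 := by
      rcases hne with h | h
      · exact h
      · exact absurd hm' h
    have hσ0 : σ ≠ 0 := hrel m hm hm0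
    have hσ1 : (1 : ℝ) ≤ |(σ : ℝ)| := by exact_mod_cast Int.one_le_abs hσ0
    rw [hm', Int.cast_zero, zero_sub, abs_neg, abs_mul, abs_of_nonneg hγ]
    have : γ ≤ |(σ : ℝ)| * γ := le_mul_of_one_le_left hγ hσ1
    exact h1.trans (mul_le_mul_of_nonneg_left this hZ)
  · have hm1 : (1 : ℝ) ≤ |(m' : ℝ)| := by exact_mod_cast Int.one_le_abs hm'
    have : 1 / 2 ≤ |(m' : ℝ) - (σ : ℝ) * γ| := by
      have := abs_sub_abs_le_abs_sub (m' : ℝ) ((σ : ℝ) * γ)
      linarith
    nlinarith [mul_le_mul_of_nonneg_left this hZ]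

end Pool.Agent.P.MP_6e34ef_nt.SE
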