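import Pool.Agent.P.MP_6e34ef_nt.SE.Defs
import Pool.Agent.P.MP_6e34ef_nt.Roth.Zero

set_option autoImplicit false

namespace Pool.Agent.P.MP_6e34ef_nt.SE

open Finset Polynomial

/-- The zero lemma of Roth type. -/
theorem zeroLemma (n ζ C0 : ℕ) (hζ : 1 ≤ ζ) : ∃ C1 C2 : ℕ, 1 ≤ C1 ∧
    ∀ (V : ℕ) (τ : Fin n → ℝ) (c : (Fin n → ℕ) → ℤ) (t : Fin n → ℂ) (w0 : ℂ), 1 ≤ V →
      (∀ i, 0 ≤ τ i) → (∀ i, t i ≠ 0) → w0 ≠ 0 → NonRes C1 (ζ * V) τ →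
      (∃ z ∈ Om n (ζ * V), c z ≠ 0) → ∑ z ∈ Om n (ζ * V), |c z| ≤ 2 ^ (C0 * (ζ * V)) →
      (∀ a : Fin n → ℕ, ∑ i, a i < V →
        ∑ z ∈ Om n (ζ * V), (c z : ℂ) * (bin z a : ℂ) * ((∏ i, t i ^ z i) * w0 ^ kp τ z) = 0) →
      ∃ (S : ℤ[X]) (e : ℕ), S ≠ 0 ∧ 1 ≤ e ∧ (X - C w0) ^ e ∣ S.map (Int.castRingHom ℂ) ∧
        ∑ i ∈ S.support, |S.coeff i| ≤ 2 ^ (C2 * V * e) := by
  have hζ' : (1 : ℝ) ≤ ζ := by exact_mod_cast hζ
  obtain ⟨C1, C2, -, h⟩ := Roth.zero_lemma n (1 / ζ) (by positivity)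
    (by rwa [div_le_one (by positivity)]) C0
  refine ⟨C1 + 1, C2, Nat.le_add_left _ _, ?_⟩
  intro V τ c t w0 hV hτ ht _ hres hc hl hvan
  obtain ⟨S, e, h1, h2, h3, h4⟩ := h ℂ (ζ * V) V (Nat.mul_pos hζ hV)
    (le_of_eq (by push_cast; field_simp)) τ
    (fun m m' hm hle => by
      by_contra hne
      have := hres m m' (fun i => (hm i).trans (by push_cast; omega)) (not_and_or.1 hne)
      push_cast at this hle
      linarith)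
    (Om n (ζ * V)) (kp τ) c
    (fun z hz i => (single_le_sum (f := z) (fun _ _ => Nat.zero_le _) (mem_univ i)).trans
      (mem_Om.1 hz))
    (fun z _ => ⟨kp_le_real hτ z, (lt_kp_add_one τ z).le⟩) hc
    (by
      zify
      exact hl)
    t w0 ht
    (fun a ha => by
      rw [← hvan a ha]
      refine sum_congr rfl fun z _ => ?_
      simp only [bin, Nat.cast_prod]
      ring)
  refine ⟨S, e, h1, h2, h3, ?_⟩
  zify at h4
  exact h4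

end Pool.Agent.P.MP_6e34ef_nt.SE
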