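import Pool.Agent.P.MP_6e34ef_nt.SY.Defs

set_option autoImplicit false

namespace Pool.Agent.P.MP_6e34ef_nt.SE

open Finset

/-- The simplex of exponent vectors of total degree at most `Z`. -/
def Om (n Z : ℕ) : Finset (Fin n → ℕ) :=
  (Fintype.piFinset fun _ : Fin n => range (Z + 1)).filter fun z => ∑ i, z i ≤ Z

/-- Product of binomial coefficients. -/
def bin {n : ℕ} (z a : Fin n → ℕ) : ℕ := ∏ i, (z i).choose (a i)

/-- The integer part of the scalar product. -/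
noncomputable def kp {n : ℕ} (τ : Fin n → ℝ) (z : Fin n → ℕ) : ℕ := ⌊∑ i, (z i : ℝ) * τ i⌋₊

/-- The coefficients kill the products of binomial coefficients of weighted degree below
`V * ω + W`. -/
def Orth {n : ℕ} (Z ω V W : ℕ) (κ : (Fin n → ℕ) → ℕ) (c : (Fin n → ℕ) → ℤ) : Prop :=
  ∀ b < ω, ∀ a : Fin n → ℕ, ∑ i, a i < V * (ω - b) + W →
    ∑ z ∈ Om n Z, c z * (bin z a : ℤ) * ((κ z).choose b : ℤ) = 0

/-- No small integer combination of the slopes is close to an integer. -/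
def NonRes {n : ℕ} (C1 Z : ℕ) (τ : Fin n → ℝ) : Prop :=
  ∀ (m : Fin n → ℤ) (m' : ℤ), (∀ i, |m i| ≤ C1) → (m ≠ 0 ∨ m' ≠ 0) →
    (C1 : ℝ) ≤ Z * |(m' : ℝ) - ∑ i, (m i : ℝ) * τ i|

/-- The homogeneous monomial. -/
def mono {A : Type} [CommRing A] {n : ℕ} (Z : ℕ) (P0 : A) (P : Fin n → A) (w u : A)
    (z : Fin n → ℕ) (k : ℕ) : A :=
  P0 ^ (Z - ∑ i, z i) * (∏ i, P i ^ z i) * w ^ k * u ^ (Z - k)

open Pool.Agent.P.MP_6e34ef_nt.SY in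
/-- The approximate real power of `u / w`, times `w` and an anchor. -/
noncomputable def Pv {R : Type} [CommRing R] (T : Tri R) (γ : ℝ) (j : ℕ) (r : R) : R :=
  pw T.su (fun q => ⌊(j : ℝ) * γ * T.α q⌋₊) *
    pw T.sw (fun q => T.β q - ⌊(j : ℝ) * γ * T.β q⌋₊) * r

theorem mem_Om {n Z : ℕ} {z : Fin n → ℕ} : z ∈ Om n Z ↔ ∑ i, z i ≤ Z := by
  unfold Om
  rw [mem_filter, Fintype.mem_piFinset]
  refine ⟨fun h => h.2, fun h => ⟨fun i => mem_range.2 (Nat.lt_succ_of_le ?_), h⟩⟩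
  exact (single_le_sum (f := z) (fun _ _ => Nat.zero_le _) (mem_univ i)).trans h

theorem kp_nonneg {n : ℕ} {τ : Fin n → ℝ} (h0 : ∀ i, 0 ≤ τ i) (z : Fin n → ℕ) :
    0 ≤ ∑ i, (z i : ℝ) * τ i :=
  sum_nonneg fun i _ => mul_nonneg (Nat.cast_nonneg _) (h0 i)

theorem kp_le_real {n : ℕ} {τ : Fin n → ℝ} (h0 : ∀ i, 0 ≤ τ i) (z : Fin n → ℕ) :
    (kp τ z : ℝ) ≤ ∑ i, (z i : ℝ) * τ i := Nat.floor_le (kp_nonneg h0 z)

theorem lt_kp_add_one {n : ℕ} (τ : Fin n → ℝ) (z : Fin n → ℕ) :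
    ∑ i, (z i : ℝ) * τ i < kp τ z + 1 := Nat.lt_floor_add_one _

theorem kp_le {n Z : ℕ} {τ : Fin n → ℝ} (h1 : ∀ i, τ i ≤ 1) {z : Fin n → ℕ}
    (hz : z ∈ Om n Z) : kp τ z ≤ Z := by
  refine Nat.floor_le_of_le ?_
  have h2 : ((∑ i, z i : ℕ) : ℝ) ≤ Z := by exact_mod_cast mem_Om.1 hz
  refine le_trans ?_ h2
  push_cast
  exact sum_le_sum fun i _ => mul_le_of_le_one_right (Nat.cast_nonneg _) (h1 i)

theorem bin_le {n Z : ℕ} {z : Fin n → ℕ} (hz : z ∈ Om n Z) (a : Fin n → ℕ) :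
    bin z a ≤ 2 ^ Z := by
  calc bin z a ≤ ∏ i, 2 ^ z i := prod_le_prod' fun i _ => Nat.choose_le_two_pow _ _
    _ = 2 ^ ∑ i, z i := prod_pow_eq_pow_sum _ _ _
    _ ≤ 2 ^ Z := Nat.pow_le_pow_right two_pos (mem_Om.1 hz)

end Pool.Agent.P.MP_6e34ef_nt.SE
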