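import Pool.Agent.P.MP_6e34ef_nt.SE.Defs

set_option autoImplicit false

namespace Pool.Agent.P.MP_6e34ef_nt.SE

open Finset

theorem core_pow {A : Type} [CommRing A] (x y : A) {k Z : ℕ} (hk : k ≤ Z) :
    x ^ k = ∑ b ∈ range (Z + 1), (k.choose b : A) * ((x - y) ^ b * y ^ (k - b)) := by
  have h : x ^ k = ((x - y) + y) ^ k := by rw [sub_add_cancel]
  rw [h, add_pow, ← sum_subset (range_subset_range.2 (Nat.succ_le_succ hk))]
  · exact sum_congr rfl fun b _ => by ring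
  · intro b _ hb
    rw [Nat.choose_eq_zero_of_lt (by simpa using hb), Nat.cast_zero, zero_mul]

theorem core_wu {A : Type} [CommRing A] (w u : A) {k Z : ℕ} (hk : k ≤ Z) :
    w ^ k * u ^ (Z - k) =
      ∑ b ∈ range (Z + 1), (k.choose b : A) * ((w - u) ^ b * u ^ (Z - b)) := by
  rw [core_pow w u hk, sum_mul]
  refine sum_congr rfl fun b _ => ?_
  by_cases hb : b ≤ k
  · have e : Z - b = (k - b) + (Z - k) := by omega
    rw [e, pow_add]; ring
  · rw [Nat.choose_eq_zero_of_lt (by omega), Nat.cast_zero, zero_mul, zero_mul, zero_mul]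

theorem core_P {A : Type} [CommRing A] {n Z : ℕ} (P0 : A) (P : Fin n → A) {z : Fin n → ℕ}
    (hz : z ∈ Om n Z) :
    P0 ^ (Z - ∑ i, z i) * ∏ i, P i ^ z i =
      ∑ a ∈ Fintype.piFinset fun _ : Fin n => range (Z + 1),
        (bin z a : A) * (P0 ^ (Z - ∑ i, a i) * ∏ i, (P i - P0) ^ a i) := by
  have hz' := mem_Om.1 hz
  have hi : ∀ i, z i ≤ Z := fun i =>
    (single_le_sum (f := z) (fun _ _ => Nat.zero_le _) (mem_univ i)).trans hz'
  rw [prod_congr rfl fun i _ => core_pow (P i) P0 (hi i), prod_univ_sum, mul_sum]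
  refine sum_congr rfl fun a _ => ?_
  rw [prod_mul_distrib, prod_mul_distrib, prod_pow_eq_pow_sum, bin, Nat.cast_prod]
  by_cases ha : ∀ i, a i ≤ z i
  · have e1 : ∑ i, (z i - a i) + ∑ i, a i = ∑ i, z i := by
      rw [← sum_add_distrib]
      exact sum_congr rfl fun i _ => Nat.sub_add_cancel (ha i)
    have e : Z - ∑ i, a i = (Z - ∑ i, z i) + ∑ i, (z i - a i) := by omega
    rw [e, pow_add]; ring
  · push Not at ha
    obtain ⟨i, hi⟩ := ha
    have : ∏ i, ((z i).choose (a i) : A) = 0 :=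
      prod_eq_zero (mem_univ i) (by rw [Nat.choose_eq_zero_of_lt hi, Nat.cast_zero])
    rw [this]; ring

theorem core_dvd {A : Type} [CommRing A] {n Z ω V : ℕ} {κ : (Fin n → ℕ) → ℕ}
    {c : (Fin n → ℕ) → ℤ} (h : Orth Z ω V 0 κ c) (hκ : ∀ z ∈ Om n Z, κ z ≤ Z)
    (a m P0 w u : A) (P : Fin n → A) (ham : a ∣ m ^ V) (hP : ∀ i, m ∣ P i - P0)
    (hx : a ∣ u - w) :
    a ^ ω ∣ ∑ z ∈ Om n Z, (c z : A) * mono Z P0 P w u z (κ z) := by
  have hx' : a ∣ w - u := by rw [← neg_sub]; exact hx.neg_right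
  have key : ∑ z ∈ Om n Z, (c z : A) * mono Z P0 P w u z (κ z) =
      ∑ f ∈ Fintype.piFinset fun _ : Fin n => range (Z + 1), ∑ b ∈ range (Z + 1),
        ((∑ z ∈ Om n Z, c z * (bin z f : ℤ) * ((κ z).choose b : ℤ) : ℤ) : A) *
          ((P0 ^ (Z - ∑ i, f i) * ∏ i, (P i - P0) ^ f i) * ((w - u) ^ b * u ^ (Z - b))) := by
    have e : ∀ z ∈ Om n Z, (c z : A) * mono Z P0 P w u z (κ z) =
        ∑ f ∈ Fintype.piFinset fun _ : Fin n => range (Z + 1), ∑ b ∈ range (Z + 1),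
          (c z : A) * (bin z f : A) * ((κ z).choose b : A) *
          ((P0 ^ (Z - ∑ i, f i) * ∏ i, (P i - P0) ^ f i) * ((w - u) ^ b * u ^ (Z - b))) := by
      intro z hz
      rw [mono, mul_assoc _ (w ^ κ z), core_P P0 P hz, core_wu w u (hκ z hz), sum_mul_sum, mul_sum]
      refine sum_congr rfl fun f _ => ?_
      rw [mul_sum]
      exact sum_congr rfl fun b _ => by ring
    rw [sum_congr rfl e, sum_comm]
    refine sum_congr rfl fun f _ => ?_
    rw [sum_comm]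
    refine sum_congr rfl fun b _ => ?_
    push_cast
    rw [sum_mul]
  rw [key]
  refine dvd_sum fun f _ => dvd_sum fun b _ => ?_
  by_cases hb : b < ω
  · by_cases hf : ∑ i, f i < V * (ω - b) + 0
    · rw [h b hb f hf, Int.cast_zero, zero_mul]
      exact dvd_zero _
    · have h1 : a ^ (ω - b) ∣ ∏ i, (P i - P0) ^ f i := by
        calc a ^ (ω - b) ∣ (m ^ V) ^ (ω - b) := pow_dvd_pow_of_dvd ham _
          _ = m ^ (V * (ω - b)) := (pow_mul _ _ _).symm
          _ ∣ m ^ ∑ i, f i := pow_dvd_pow _ (by omega)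
          _ = ∏ i, m ^ f i := (prod_pow_eq_pow_sum _ _ _).symm
          _ ∣ ∏ i, (P i - P0) ^ f i :=
            prod_dvd_prod_of_dvd _ _ fun i _ => pow_dvd_pow_of_dvd (hP i) _
      have e : a ^ ω = a ^ (ω - b) * a ^ b := by rw [← pow_add, Nat.sub_add_cancel hb.le]
      rw [e]
      exact Dvd.dvd.mul_left (mul_dvd_mul (h1.mul_left _)
        ((pow_dvd_pow_of_dvd hx' b).mul_right _)) _
  · exact Dvd.dvd.mul_left (Dvd.dvd.mul_left (Dvd.dvd.mul_right
      ((pow_dvd_pow a (not_lt.1 hb)).trans (pow_dvd_pow_of_dvd hx' b)) _) _) _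

theorem mono_map {A : Type} [CommRing A] (φ : A →+* ℂ) {n Z : ℕ} (P0 w u : A) (P : Fin n → A)
    (h0 : φ P0 ≠ 0) (hu : φ u ≠ 0) {z : Fin n → ℕ} (hz : z ∈ Om n Z) {k : ℕ} (hk : k ≤ Z) :
    φ (mono Z P0 P w u z k) =
      φ P0 ^ Z * φ u ^ Z * ((∏ i, (φ (P i) / φ P0) ^ z i) * (φ w / φ u) ^ k) := by
  have e1 : φ P0 ^ Z = φ P0 ^ (Z - ∑ i, z i) * φ P0 ^ ∑ i, z i := by
    rw [← pow_add, Nat.sub_add_cancel (mem_Om.1 hz)]
  have e2 : φ u ^ Z = φ u ^ (Z - k) * φ u ^ k := by rw [← pow_add, Nat.sub_add_cancel hk]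
  have h1 := pow_ne_zero (∑ i, z i) h0
  have h2 := pow_ne_zero k hu
  rw [e1, e2]
  simp only [mono, map_mul, map_pow, map_prod, div_pow, prod_div_distrib, prod_pow_eq_pow_sum]
  field_simp

end Pool.Agent.P.MP_6e34ef_nt.SE
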