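import Pool.Agent.P.MP_6e34ef_nt.SE.Defs

set_option autoImplicit false

namespace Pool.Agent.P.MP_6e34ef_nt.SE

open Finset

theorem count_fiber (n Z k : ℕ) (hk : k ≤ Z) :
    ((Om (n + 1) Z).filter fun z => z 0 = k).card = (Om n (Z - k)).card := by
  refine card_bij (fun z _ => Fin.tail z) (fun z hz => ?_) (fun z hz w hw e => ?_)
    fun w hw => ⟨Fin.cons k w, ?_, Fin.tail_cons _ _⟩
  · obtain ⟨h1, h2⟩ := mem_filter.1 hz
    rw [mem_Om, Fin.sum_univ_succ, h2] at h1
    rw [mem_Om]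
    exact Nat.le_sub_of_add_le' h1
  · rw [← Fin.cons_self_tail z, ← Fin.cons_self_tail w, e, (mem_filter.1 hz).2,
      (mem_filter.1 hw).2]
  · rw [mem_Om] at hw
    refine mem_filter.2 ⟨?_, rfl⟩
    rw [mem_Om, Fin.sum_univ_succ]
    simp only [Fin.cons_zero, Fin.cons_succ]
    omega

theorem card_Om (n Z : ℕ) : (Om n Z).card = (Z + n).choose n := by
  induction n generalizing Z with
  | zero =>
    rw [Nat.choose_zero_right, card_eq_one]
    refine ⟨default, eq_singleton_iff_unique_mem.2 ⟨mem_Om.2 (by simp), fun _ _ => ?_⟩⟩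
    exact Subsingleton.elim _ _
  | succ n ih =>
    rw [card_eq_sum_card_fiberwise (f := fun z => z 0) (t := range (Z + 1)) fun z hz => ?_,
      sum_congr rfl fun k hk => (count_fiber n Z k (Nat.le_of_lt_succ (mem_range.1 hk))).trans
        (ih _), ← add_assoc, ← Nat.sum_range_add_choose, ← sum_range_reflect]
    · refine sum_congr rfl fun k hk => ?_
      have := mem_range.1 hk
      congr 1
      omega
    · have h1 := mem_Om.1 hz
      rw [Fin.sum_univ_succ] at h1
      exact mem_coe.2 (mem_range.2 (Nat.lt_succ_of_le (le_of_add_le_left h1)))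

theorem card_Om_le {n Z : ℕ} (h : n ≤ Z) : (Om n Z).card ≤ 2 ^ (2 * Z) := by
  rw [card_Om]
  exact (Nat.choose_le_two_pow _ _).trans (Nat.pow_le_pow_right two_pos (by omega))

theorem count_step (ω V n : ℕ) (h : n ≤ V) :
    (ω + 3) ^ n * ((ω + 1) * V + n).choose n ≤ (ω + 2) ^ n * ((ω + 2) * V + n).choose n := by
  induction n with
  | zero => simp
  | succ n ih =>
    refine Nat.le_of_mul_le_mul_right ?_ n.succ_pos
    have e1 := Nat.add_one_mul_choose_eq ((ω + 1) * V + n) n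
    have e2 := Nat.add_one_mul_choose_eq ((ω + 2) * V + n) n
    have h1 : (ω + 3) * ((ω + 1) * V + n + 1) ≤ (ω + 2) * ((ω + 2) * V + n + 1) := by nlinarith
    calc (ω + 3) ^ (n + 1) * ((ω + 1) * V + (n + 1)).choose (n + 1) * (n + 1)
        = ((ω + 3) * ((ω + 1) * V + n + 1)) * ((ω + 3) ^ n * ((ω + 1) * V + n).choose n) := by
          rw [mul_assoc, ← add_assoc, ← e1]
          ring
      _ ≤ ((ω + 2) * ((ω + 2) * V + n + 1)) * ((ω + 2) ^ n * ((ω + 2) * V + n).choose n) :=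
          Nat.mul_le_mul h1 (ih (by omega))
      _ = _ := by
          rw [mul_assoc ((ω + 2) ^ (n + 1)), ← add_assoc, ← e2]
          ring

theorem count_bern (a n : ℕ) : a ^ n * (a + n) ≤ a * (a + 1) ^ n := by
  induction n with
  | zero => simp
  | succ n ih =>
    calc a ^ (n + 1) * (a + (n + 1)) = a ^ n * (a * (a + (n + 1))) := by ring
      _ ≤ a ^ n * ((a + n) * (a + 1)) := Nat.mul_le_mul_left _ (by nlinarith)
      _ = a ^ n * (a + n) * (a + 1) := by ring
      _ ≤ a * (a + 1) ^ n * (a + 1) := Nat.mul_le_mul_right _ ih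
      _ = _ := by ring

theorem card_ratio (ω V : ℕ) (hV : 2 * ω * (ω + 2) ≤ V) :
    2 * ω * (Om (2 * ω * (ω + 2)) ((ω + 1) * V)).card ≤
      (Om (2 * ω * (ω + 2)) ((ω + 2) * V)).card := by
  rw [card_Om, card_Om]
  have h1 := count_step ω V _ hV
  have h2 := count_bern (ω + 2) (2 * ω * (ω + 2))
  generalize ((ω + 1) * V + 2 * ω * (ω + 2)).choose (2 * ω * (ω + 2)) = x at h1 ⊢
  generalize ((ω + 2) * V + 2 * ω * (ω + 2)).choose (2 * ω * (ω + 2)) = y at h1 ⊢
  have h3 : 0 < (ω + 2) ^ (2 * ω * (ω + 2)) := by positivity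
  generalize (ω + 2) ^ (2 * ω * (ω + 2)) = p at h1 h2 h3
  rw [add_assoc ω 2 1] at h2
  generalize (ω + (2 + 1)) ^ (2 * ω * (ω + 2)) = q at h1 h2
  have h4 : p * (2 * ω) ≤ q := by
    refine Nat.le_of_mul_le_mul_left (le_trans ?_ h2) (by omega : 0 < ω + 2)
    nlinarith
  refine Nat.le_of_mul_le_mul_left (le_trans ?_ h1) h3
  rw [← mul_assoc]
  exact Nat.mul_le_mul_right _ h4

end Pool.Agent.P.MP_6e34ef_nt.SE
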