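import Pool.Agent.P.MP_6e34ef_nt.SE.Defs

set_option autoImplicit false

namespace Pool.Agent.P.MP_6e34ef_nt.SE

open Finset Polynomial Pool.Agent.P.MP_6e34ef_nt.SY

variable {R : Type} [CommRing R] [IsDomain R]

omit [IsDomain R] in
theorem gauss_comp (P : R[X]) (u : R) :
    (P.scaleRoots u).comp (C u * X) = C u ^ P.natDegree * P := by
  ext i
  rw [comp_C_mul_X_coeff, coeff_scaleRoots, ← C_pow, coeff_C_mul]
  by_cases hi : i ≤ P.natDegree
  · rw [mul_assoc, ← pow_add, Nat.sub_add_cancel hi, mul_comm]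
  · rw [coeff_eq_zero_of_natDegree_lt (not_le.1 hi)]; simp

theorem gauss_root (c : Ctx R) (u w : R) (hu : u ≠ 0) (h : IsCoprime u w) (P : R[X])
    (hP : eval₂ c.φ (c.φ w / c.φ u) P = 0) : C u * X - C w ∣ P := by
  have h1 := scaleRoots_eval₂_eq_zero_of_eval₂_div_eq_zero c.φ_inj hP
    (mem_nonZeroDivisors_of_ne_zero hu)
  rw [eval₂_at_apply] at h1
  have h2 : (P.scaleRoots u).IsRoot w := c.φ_inj (by rw [map_zero]; exact h1)
  obtain ⟨Q, hQ⟩ := dvd_iff_isRoot.2 h2
  have h3 : C u * X - C w ∣ C u ^ P.natDegree * P := by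
    rw [← gauss_comp, hQ, mul_comp, sub_comp, X_comp, C_comp]
    exact Dvd.intro _ rfl
  have h4 : IsCoprime (C u * X - C w : R[X]) (C u) := by
    obtain ⟨a, b, hab⟩ := h
    refine ⟨-C b, C a + C b * X, ?_⟩
    have : (C a * C u + C b * C w : R[X]) = 1 := by rw [← C_mul, ← C_mul, ← C_add, hab, C_1]
    linear_combination this
  exact (IsCoprime.pow_right h4).dvd_of_dvd_mul_left h3

theorem gauss_pow (c : Ctx R) (u w : R) (hu : u ≠ 0) (h : IsCoprime u w) (e : ℕ) :
    ∀ P : R[X], (X - C (c.φ w / c.φ u)) ^ e ∣ P.map c.φ → (C u * X - C w) ^ e ∣ P := by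
  have hφ := c.φ_ne_zero hu
  induction e with
  | zero => intro P _; simp
  | succ e ih =>
    intro P hP
    have h1 : X - C (c.φ w / c.φ u) ∣ P.map c.φ :=
      (dvd_pow_self _ (Nat.succ_ne_zero e)).trans hP
    have h2 := dvd_iff_isRoot.1 h1
    rw [IsRoot.def, eval_map] at h2
    obtain ⟨Q, rfl⟩ := gauss_root c u w hu h P h2
    have h3 : ((C u * X - C w) * Q).map c.φ =
        (X - C (c.φ w / c.φ u)) * (C (c.φ u) * Q.map c.φ) := by
      have : (C (c.φ w) : ℂ[X]) = C (c.φ w / c.φ u) * C (c.φ u) := by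
        rw [← C_mul, div_mul_cancel₀ _ hφ]
      rw [Polynomial.map_mul, Polynomial.map_sub, Polynomial.map_mul, map_C, map_C, map_X, this]
      ring
    rw [h3, pow_succ'] at hP
    have h4 := (mul_dvd_mul_iff_left (X_sub_C_ne_zero _)).1 hP
    have h5 := (isUnit_C.2 (Ne.isUnit hφ)).dvd_mul_left.1 h4
    rw [pow_succ']
    exact mul_dvd_mul_left _ (ih Q h5)

omit [IsDomain R] in
theorem gauss_coeff (c : Ctx R) (S : ℤ[X]) (x : R) (i : ℕ) (hi : S.coeff i ≠ 0)
    (hx : x ∣ ((S.coeff i : ℤ) : R)) :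
    c.N x ≤ ((∑ i ∈ S.support, |S.coeff i| : ℤ) : ℝ) := by
  have h0 : ((S.coeff i : ℤ) : R) ≠ 0 := by
    apply c.ne_zero_of_N_pos
    rw [c.N_intCast]
    exact abs_pos.2 (by exact_mod_cast hi)
  have h1 := c.N_le_of_dvd h0 hx
  rw [c.N_intCast] at h1
  have h2 : |S.coeff i| ≤ ∑ i ∈ S.support, |S.coeff i| :=
    single_le_sum (f := fun i => |S.coeff i|) (fun _ _ => abs_nonneg _) (mem_support_iff.2 hi)
  refine h1.trans ?_
  exact_mod_cast h2

theorem gauss (c : Ctx R) (u w : R) (hu : u ≠ 0) (hw : w ≠ 0) (h : IsCoprime u w) (S : ℤ[X])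
    (hS : S ≠ 0) (e : ℕ)
    (hd : (X - C (c.φ w / c.φ u)) ^ e ∣ S.map (Int.castRingHom ℂ)) :
    c.N u ^ e ≤ ((∑ i ∈ S.support, |S.coeff i| : ℤ) : ℝ) ∧
      c.N w ^ e ≤ ((∑ i ∈ S.support, |S.coeff i| : ℤ) : ℝ) := by
  have hmap : (S.map (Int.castRingHom R)).map c.φ = S.map (Int.castRingHom ℂ) := by
    rw [Polynomial.map_map]; congr 1; exact RingHom.ext_int _ _
  have hinj : Function.Injective (Int.castRingHom R) := by
    intro a b hab
    have h1 := congrArg c.φ hab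
    simp only [eq_intCast, map_intCast] at h1
    exact_mod_cast h1
  have hS' : S.map (Int.castRingHom R) ≠ 0 := (Polynomial.map_ne_zero_iff hinj).2 hS
  obtain ⟨Q, hQ⟩ := gauss_pow c u w hu h e (S.map (Int.castRingHom R)) (by rwa [hmap])
  have key : ∀ (x : R) (i : ℕ), (S.map (Int.castRingHom R)).coeff i ≠ 0 →
      x ^ e ∣ (S.map (Int.castRingHom R)).coeff i →
      c.N x ^ e ≤ ((∑ i ∈ S.support, |S.coeff i| : ℤ) : ℝ) := by
    intro x i hi hx
    rw [coeff_map, eq_intCast] at hi hx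
    rw [← c.N_pow]
    exact gauss_coeff c S _ i (by rintro h0; exact hi (by rw [h0, Int.cast_zero])) hx
  have hlin : (C u * X - C w : R[X]) = C u * X + C (-w) := by rw [C_neg, sub_eq_add_neg]
  constructor
  · refine key u _ (leadingCoeff_ne_zero.2 hS') ?_
    change u ^ e ∣ leadingCoeff _
    rw [hQ, leadingCoeff_mul, leadingCoeff_pow, hlin, leadingCoeff_linear hu]
    exact Dvd.intro _ rfl
  · refine key w _ (mt trailingCoeff_eq_zero.1 hS') ?_
    change w ^ e ∣ trailingCoeff _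
    have ht : (C u * X - C w : R[X]).trailingCoeff = -w := by
      have h0 : (C u * X - C w : R[X]).coeff 0 = -w := by simp
      rw [trailingCoeff_eq_coeff_zero (by rw [h0]; exact neg_ne_zero.2 hw), h0]
    have hp : ∀ k : ℕ, ((C u * X - C w : R[X]) ^ k).trailingCoeff = (-w) ^ k := by
      intro k
      induction k with
      | zero => rw [pow_zero, pow_zero, trailingCoeff_eq_coeff_zero (by simp)]; simp
      | succ k ih => rw [pow_succ, trailingCoeff_mul, ih, ht, pow_succ]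
    rw [hQ, trailingCoeff_mul, hp, neg_pow]
    exact Dvd.dvd.mul_right (Dvd.intro_left _ rfl) _

end Pool.Agent.P.MP_6e34ef_nt.SE
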