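import Pool.Agent.P.MP_6e34ef_nt.SE.Auxil
import Pool.Agent.P.MP_6e34ef_nt.SE.Close
import Pool.Agent.P.MP_6e34ef_nt.SE.Core
import Pool.Agent.P.MP_6e34ef_nt.SE.Gauss
import Pool.Agent.P.MP_6e34ef_nt.SE.Zero

set_option autoImplicit false

namespace Pool.Agent.P.MP_6e34ef_nt.SE

open Finset Pool.Agent.P.MP_6e34ef_nt.SY

variable {R : Type} [CommRing R] [IsDomain R]

/-- Auxiliary polynomial, zero lemma and divisibility put together. -/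
theorem key (c : Ctx R) (ω : ℕ) (hω : 1 ≤ ω) : ∃ C1 C2 : ℕ, 1 ≤ C1 ∧
    ∀ (V : ℕ) (τ : Fin (2 * ω * (ω + 2)) → ℝ) (A m P0 w u E : R)
      (P : Fin (2 * ω * (ω + 2)) → R) (Nmax : ℝ), 2 * ω * (ω + 2) ≤ V →
      (∀ i, 0 ≤ τ i) → (∀ i, τ i ≤ 1) → NonRes C1 ((ω + 2) * V) τ →
      P0 ≠ 0 → (∀ i, P i ≠ 0) → u ≠ 0 → w ≠ 0 → IsCoprime u w →
      (C2 : ℝ) * V < max (Real.log (c.N u)) (Real.log (c.N w)) →
      A ∣ m ^ V → (∀ i, m ∣ P i - P0) → A ∣ u - w → IsCoprime E A →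
      (∀ z ∈ Om (2 * ω * (ω + 2)) ((ω + 2) * V), ∃ y : R,
        mono ((ω + 2) * V) P0 P w u z (kp τ z) = E * y ∧ c.N y ≤ Nmax) →
      c.N A ^ ω ≤ 2 ^ (7 * ((ω + 2) * V)) * Nmax := by
  obtain ⟨C1, C2, hC1, hZ⟩ := zeroLemma (2 * ω * (ω + 2)) (ω + 2) 6 (by omega)
  refine ⟨C1, C2, hC1, fun V τ A m P0 w u E P Nmax hV h0 h1 hNR hP0 hP hu hw hcop hbig hAm hmP hAx
    hE hy => ?_⟩
  classical
  have hV1 : 1 ≤ V := by
    have : 1 ≤ 2 * ω * (ω + 2) := Nat.one_le_iff_ne_zero.2 (by positivity)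
    omega
  have hκ : ∀ z ∈ Om (2 * ω * (ω + 2)) ((ω + 2) * V), kp τ z ≤ (ω + 2) * V :=
    fun z hz => kp_le h1 hz
  obtain ⟨c0, hc0, hc1, hc2⟩ := aux ω V hω hV (kp τ) hκ
  have hφ0 := c.φ_ne_zero hP0
  have hφu := c.φ_ne_zero hu
  obtain ⟨a, ha, hne⟩ : ∃ a : Fin (2 * ω * (ω + 2)) → ℕ, ∑ i, a i < V ∧
      ∑ z ∈ Om (2 * ω * (ω + 2)) ((ω + 2) * V), (c0 z : ℂ) * (bin z a : ℂ) *
        ((∏ i, (c.φ (P i) / c.φ P0) ^ z i) * (c.φ w / c.φ u) ^ kp τ z) ≠ 0 := by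
    by_contra hcon
    push Not at hcon
    obtain ⟨S, e, hS, he, hd, hl⟩ := hZ V τ c0 (fun i => c.φ (P i) / c.φ P0) (c.φ w / c.φ u) hV1 h0
      (fun i => div_ne_zero (c.φ_ne_zero (hP i)) hφ0) (div_ne_zero (c.φ_ne_zero hw) hφu) hNR hc0
      hc1 hcon
    obtain ⟨g1, g2⟩ := gauss c u w hu hw hcop S hS e hd
    have hl' : ((∑ i ∈ S.support, |S.coeff i| : ℤ) : ℝ) ≤ (2 ^ (C2 * V)) ^ e := by
      rw [← pow_mul]; exact_mod_cast hl
    have l2 : Real.log 2 ≤ 1 := by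
      have := Real.log_le_sub_one_of_pos (show (0 : ℝ) < 2 by norm_num); linarith
    have k : ∀ x : R, x ≠ 0 → c.N x ^ e ≤ (2 ^ (C2 * V)) ^ e → Real.log (c.N x) ≤ C2 * V := by
      intro x hx h
      have h2 : c.N x ≤ 2 ^ (C2 * V) :=
        (pow_le_pow_iff_left₀ (c.N_nonneg x) (by positivity) (by omega)).1 h
      have h3 := Real.log_le_log (c.N_pos hx) h2
      rw [Real.log_pow] at h3
      push_cast at h3
      have h4 : (0 : ℝ) ≤ C2 * V := by positivity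
      nlinarith
    exact absurd (max_le (k u hu (g1.trans hl')) (k w hw (g2.trans hl'))) (not_le.2 hbig)
  have horth := orth_mul hc2 a ha.le
  have hdvd := core_dvd horth hκ A m P0 w u P hAm hmP hAx
  choose! y hy1 hy2 using hy
  have hs : ∑ z ∈ Om (2 * ω * (ω + 2)) ((ω + 2) * V),
      ((c0 z * (bin z a : ℤ) : ℤ) : R) * mono ((ω + 2) * V) P0 P w u z (kp τ z) =
      E * ∑ z ∈ Om (2 * ω * (ω + 2)) ((ω + 2) * V), ((c0 z * (bin z a : ℤ) : ℤ) : R) * y z := by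
    rw [Finset.mul_sum]
    exact Finset.sum_congr rfl fun z hz => by rw [hy1 z hz]; ring
  have hs0 : ∑ z ∈ Om (2 * ω * (ω + 2)) ((ω + 2) * V),
      ((c0 z * (bin z a : ℤ) : ℤ) : R) * y z ≠ 0 := by
    intro h
    rw [h, mul_zero] at hs
    have h2 := congrArg c.φ hs
    rw [map_sum, map_zero] at h2
    apply hne
    have h3 : c.φ P0 ^ ((ω + 2) * V) * c.φ u ^ ((ω + 2) * V) ≠ 0 :=
      mul_ne_zero (pow_ne_zero _ hφ0) (pow_ne_zero _ hφu)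
    apply mul_left_cancel₀ h3
    rw [mul_zero, Finset.mul_sum, ← h2]
    refine Finset.sum_congr rfl fun z hz => ?_
    rw [map_mul, mono_map c.φ P0 w u P hφ0 hφu hz (hκ z hz), map_intCast]
    push_cast
    ring
  rw [hs] at hdvd
  have hd2 := (hE.symm.pow_left (m := ω)).dvd_of_dvd_mul_left hdvd
  have hle := c.N_le_of_dvd hs0 hd2
  rw [c.N_pow] at hle
  refine hle.trans ?_
  have hz0 : (0 : Fin (2 * ω * (ω + 2)) → ℕ) ∈ Om (2 * ω * (ω + 2)) ((ω + 2) * V) :=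
    mem_Om.2 (by simp)
  have hN0 : 0 ≤ Nmax := (c.N_nonneg _).trans (hy2 _ hz0)
  have hc1' : ∑ z ∈ Om (2 * ω * (ω + 2)) ((ω + 2) * V), |(c0 z : ℝ)| ≤
      2 ^ (6 * ((ω + 2) * V)) := by exact_mod_cast hc1
  calc c.N (∑ z ∈ Om (2 * ω * (ω + 2)) ((ω + 2) * V), ((c0 z * (bin z a : ℤ) : ℤ) : R) * y z)
      ≤ ∑ z ∈ Om (2 * ω * (ω + 2)) ((ω + 2) * V),
          c.N (((c0 z * (bin z a : ℤ) : ℤ) : R) * y z) := by
        unfold Ctx.N
        rw [map_sum]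
        exact norm_sum_le _ _
    _ ≤ ∑ z ∈ Om (2 * ω * (ω + 2)) ((ω + 2) * V),
          |(c0 z : ℝ)| * (2 ^ ((ω + 2) * V) * Nmax) := by
        refine Finset.sum_le_sum fun z hz => ?_
        rw [c.N_mul, c.N_intCast]
        push_cast
        rw [abs_mul, mul_assoc, Nat.abs_cast]
        have hb : (bin z a : ℝ) ≤ 2 ^ ((ω + 2) * V) := by exact_mod_cast bin_le hz a
        exact mul_le_mul_of_nonneg_left
          (mul_le_mul hb (hy2 z hz) (c.N_nonneg _) (by positivity)) (abs_nonneg _)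
    _ ≤ 2 ^ (6 * ((ω + 2) * V)) * (2 ^ ((ω + 2) * V) * Nmax) := by
        rw [← Finset.sum_mul]
        exact mul_le_mul_of_nonneg_right hc1' (by positivity)
    _ = 2 ^ (7 * ((ω + 2) * V)) * Nmax := by
        rw [← mul_assoc, ← pow_add]
        congr 2
        ring

end Pool.Agent.P.MP_6e34ef_nt.SE
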