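import Pool.Agent.P.MP_6e34ef_nt.SE.Close
import Pool.Agent.P.MP_6e34ef_nt.SY.Pigeon

set_option autoImplicit false

namespace Pool.Agent.P.MP_6e34ef_nt.SE

open Finset Pool.Agent.P.MP_6e34ef_nt.SY

theorem multi_pigeon {ι Λ Col : Type} [Fintype ι] (a : ι → ℝ) (K : ℕ) (hK : 1 ≤ K)
    (s : Finset Λ) (τ : Λ → ℝ) (col : Λ → Col) (Cs : Finset Col) (hc : ∀ x ∈ s, col x ∈ Cs)
    (hne : Cs.Nonempty) (M : ℕ) (hcard : K ^ Fintype.card ι * Cs.card * M ≤ s.card) :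
    ∃ F : Finset Λ, F ⊆ s ∧ M ≤ F.card ∧ ∀ x ∈ F, ∀ y ∈ F, col x = col y ∧
      ∀ i, |Int.fract (τ x * a i) - Int.fract (τ y * a i)| ≤ 1 / (K : ℝ) := by
  classical
  have hK0 : (0 : ℝ) < K := by exact_mod_cast hK
  obtain ⟨t, -, ht⟩ := Finset.exists_le_card_fiber_of_mul_le_card_of_maps_to
    (s := s) (t := (Fintype.piFinset fun _ : ι => range K) ×ˢ Cs) (n := M)
    (f := fun x => (fun i => ⌊(K : ℝ) * Int.fract (τ x * a i)⌋₊, col x))
    (by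
      intro x hx
      simp only [mem_product, Fintype.mem_piFinset, mem_range]
      refine ⟨fun i => ?_, hc x hx⟩
      rw [Nat.floor_lt (mul_nonneg hK0.le (Int.fract_nonneg _))]
      exact mul_lt_of_lt_one_right hK0 (Int.fract_lt_one _))
    (by
      obtain ⟨y, hy⟩ := hne
      refine ⟨(fun _ => 0, y), ?_⟩
      simp only [mem_product, Fintype.mem_piFinset, mem_range]
      exact ⟨fun _ => hK, hy⟩)
    (by rw [card_product, Fintype.card_piFinset]; simpa using hcard)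
  refine ⟨_, filter_subset _ _, ht, fun x hx y hy => ?_⟩
  have heq := (mem_filter.1 hx).2.trans (mem_filter.1 hy).2.symm
  refine ⟨(Prod.mk.inj heq).2, fun i => ?_⟩
  have h := congrFun (Prod.mk.inj heq).1 i
  have h1 := Nat.floor_le (mul_nonneg hK0.le (Int.fract_nonneg (τ x * a i)))
  have h2 := Nat.floor_le (mul_nonneg hK0.le (Int.fract_nonneg (τ y * a i)))
  have h3 := Nat.lt_floor_add_one ((K : ℝ) * Int.fract (τ x * a i))
  have h4 := Nat.lt_floor_add_one ((K : ℝ) * Int.fract (τ y * a i))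
  rw [h] at h1 h3
  rw [le_div_iff₀ hK0, ← abs_of_pos hK0, ← abs_mul, abs_le]
  constructor <;> nlinarith

variable {R : Type} [CommRing R] [IsDomain R]

/-- A collision of many pairs at once. -/
theorem multi (c : Ctx R) (T : Tri R) (m : R) (hm : m ≠ 0)
    (hu : ∀ q ∈ T.su, IsCoprime q m) (hw : ∀ q ∈ T.sw, IsCoprime q m)
    (BB : Finset R) (hB : ∀ r1 ∈ BB, ∀ r2 ∈ BB, m ∣ r1 - r2 → r1 = r2)
    (K J C n : ℕ) (hK : 1 ≤ K) (γ : ℝ)
    (hcard : (((2 * C + 1) ^ n + 1 : ℕ) : ℝ) *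
      ((K : ℝ) ^ (T.su.card + T.sw.card) * (c.C0 * c.N m ^ c.d)) ≤ (J + 1) * BB.card) :
    ∃ (j0 : ℕ) (d : Fin n → ℕ) (r0 : R) (r : Fin n → R), r0 ∈ BB ∧ (∀ i, r i ∈ BB) ∧
      j0 ≤ J ∧ (∀ i, j0 + d i ≤ J) ∧
      (∀ l : Fin n → ℤ, (∀ i, |l i| ≤ C) → l ≠ 0 → ∑ i, l i * (d i : ℤ) ≠ 0) ∧
      (∀ i, m ∣ Pv T γ (j0 + d i) (r i) - Pv T γ j0 r0) ∧
      (∀ i, ∀ q ∈ T.su, |Int.fract (((j0 + d i : ℕ) : ℝ) * γ * T.α q) -
        Int.fract ((j0 : ℝ) * γ * T.α q)| ≤ 1 / (K : ℝ)) ∧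
      (∀ i, ∀ q ∈ T.sw, |Int.fract (((j0 + d i : ℕ) : ℝ) * γ * T.β q) -
        Int.fract ((j0 : ℝ) * γ * T.β q)| ≤ 1 / (K : ℝ)) := by
  classical
  obtain ⟨Cs, hCs, hCc⟩ := c.ball (c.N m) (c.one_le_N hm)
  choose rp hrp hrn using c.rep m hm
  have hK0 : (0 : ℝ) < K := by exact_mod_cast hK
  obtain ⟨F, hFs, hFc, hF⟩ := multi_pigeon (ι := {q // q ∈ T.su} ⊕ {q // q ∈ T.sw})
    (Sum.elim (fun q => (T.α q.1 : ℝ)) (fun q => (T.β q.1 : ℝ))) K hK (range (J + 1) ×ˢ BB)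
    (fun x => (x.1 : ℝ) * γ) (fun x => rp (Pv T γ x.1 x.2)) Cs (fun x _ => hCs _ (hrn _))
    ⟨rp 0, hCs _ (hrn _)⟩ ((2 * C + 1) ^ n + 1)
    (by
      rw [card_product, card_range, Fintype.card_sum, Fintype.card_coe, Fintype.card_coe]
      have h1 : ((K : ℝ)) ^ (T.su.card + T.sw.card) * Cs.card * (((2 * C + 1) ^ n + 1 : ℕ) : ℝ)
          ≤ (J + 1) * BB.card := by
        refine le_trans ?_ hcard
        rw [mul_comm]
        exact mul_le_mul_of_nonneg_left (mul_le_mul_of_nonneg_left hCc (by positivity))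
          (Nat.cast_nonneg _)
      exact_mod_cast h1)
  have hdv : ∀ x ∈ F, ∀ y ∈ F, m ∣ Pv T γ x.1 x.2 - Pv T γ y.1 y.2 := by
    intro x hx y hy
    have h := dvd_sub (hrp (Pv T γ x.1 x.2)) (hrp (Pv T γ y.1 y.2))
    rw [(hF x hx y hy).1] at h
    simpa using h
  have hinj : ∀ x ∈ F, ∀ y ∈ F, x.1 = y.1 → x = y := by
    intro x hx y hy h
    have hd := hdv x hx y hy
    unfold Pv at hd
    rw [h, ← mul_sub] at hd
    have hd' := ((pigeon_pw_cop T.su _ m hu).mul_left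
      (pigeon_pw_cop T.sw _ m hw)).symm.dvd_of_dvd_mul_left hd
    exact Prod.ext h (hB _ (mem_product.1 (hFs hx)).2 _ (mem_product.1 (hFs hy)).2 hd')
  have hFne : F.Nonempty := card_pos.1 (lt_of_lt_of_le (Nat.succ_pos _) hFc)
  obtain ⟨x0, hx0, hmin⟩ := exists_min_image F (fun x => x.1) hFne
  have hDc : (F.image fun x => x.1 - x0.1).card = F.card := by
    refine card_image_of_injOn fun x hx y hy h => hinj x hx y hy ?_
    have h1 := hmin x hx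
    have h2 := hmin y hy
    have h3 : x.1 - x0.1 = y.1 - x0.1 := h
    omega
  obtain ⟨d, hd, hrel⟩ := select C n (F.image fun x => x.1 - x0.1)
    (by rw [hDc]; omega)
  choose x hxF hxd using fun i => mem_image.1 (hd i)
  have hx1 : ∀ i, x0.1 + d i = (x i).1 := by
    intro i
    have h1 := hmin _ (hxF i)
    have h2 := hxd i
    omega
  have hJ : ∀ y ∈ F, y.1 ≤ J := fun y hy =>
    Nat.lt_succ_iff.1 (mem_range.1 (mem_product.1 (hFs hy)).1)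
  refine ⟨x0.1, d, x0.2, fun i => (x i).2, (mem_product.1 (hFs hx0)).2,
    fun i => (mem_product.1 (hFs (hxF i))).2, hJ _ hx0, fun i => ?_, hrel, fun i => ?_,
    fun i q hq => ?_, fun i q hq => ?_⟩
  · rw [hx1]; exact hJ _ (hxF i)
  · rw [hx1]; exact hdv _ (hxF i) _ hx0
  · rw [hx1]; exact (hF _ (hxF i) _ hx0).2 (Sum.inl ⟨q, hq⟩)
  · rw [hx1]; exact (hF _ (hxF i) _ hx0).2 (Sum.inr ⟨q, hq⟩)

end Pool.Agent.P.MP_6e34ef_nt.SE
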