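import Pool.Agent.P.MP_6e34ef_nt.SE.Defs
import Pool.Agent.P.MP_6e34ef_nt.SY.Vals
import Pool.Agent.P.MP_6e34ef_nt.SY.Pigeon

set_option autoImplicit false

namespace Pool.Agent.P.MP_6e34ef_nt.SE

open Finset Pool.Agent.P.MP_6e34ef_nt.SY

variable {R : Type} [CommRing R] [IsDomain R]

omit [IsDomain R] in
theorem vals_pw_sum {n : ℕ} (s : Finset R) (f : Fin n → R → ℕ) (z : Fin n → ℕ) :
    ∏ i, pw s (f i) ^ z i = pw s (fun q => ∑ i, z i * f i q) := by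
  unfold pw
  simp only [← Finset.prod_pow]
  rw [Finset.prod_comm]
  refine Finset.prod_congr rfl fun q _ => ?_
  rw [← Finset.prod_pow_eq_pow_sum]
  exact Finset.prod_congr rfl fun i _ => by rw [← pow_mul, mul_comm]

theorem vals_fl (x : ℝ) (hx : 0 ≤ x) : (⌊x⌋₊ : ℝ) = x - Int.fract x := by
  rw [Int.self_sub_fract, natCast_floor_eq_intCast_floor hx]

/-- The weighted sum of the integer parts, up to the error `η * Z`. -/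
theorem vals_err {n : ℕ} (Z j0 : ℕ) (d : Fin n → ℕ) (γ η : ℝ) (hγ : 0 ≤ γ) (hη : 0 ≤ η) (α : ℕ)
    (he : ∀ i, |Int.fract (((j0 + d i : ℕ) : ℝ) * γ * α) - Int.fract ((j0 : ℝ) * γ * α)| ≤ η)
    (z : Fin n → ℕ) (hz : ∑ i, z i ≤ Z) :
    |((Z - ∑ i, z i : ℕ) : ℝ) * (⌊(j0 : ℝ) * γ * α⌋₊ : ℝ) +
        ∑ i, (z i : ℝ) * (⌊((j0 + d i : ℕ) : ℝ) * γ * α⌋₊ : ℝ) -
        (Z * (⌊(j0 : ℝ) * γ * α⌋₊ : ℝ) + (∑ i, (z i : ℝ) * ((d i : ℝ) * γ)) * α)| ≤ η * Z := by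
  have h0 := vals_fl ((j0 : ℝ) * γ * α) (by positivity)
  have h1 : ∀ i, (⌊((j0 + d i : ℕ) : ℝ) * γ * α⌋₊ : ℝ) =
      ((j0 + d i : ℕ) : ℝ) * γ * α - Int.fract (((j0 + d i : ℕ) : ℝ) * γ * α) :=
    fun i => vals_fl _ (by positivity)
  have hz' : ∑ i, (z i : ℝ) ≤ Z := by exact_mod_cast hz
  have e : ((Z - ∑ i, z i : ℕ) : ℝ) * (⌊(j0 : ℝ) * γ * α⌋₊ : ℝ) +
        ∑ i, (z i : ℝ) * (⌊((j0 + d i : ℕ) : ℝ) * γ * α⌋₊ : ℝ) -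
        (Z * (⌊(j0 : ℝ) * γ * α⌋₊ : ℝ) + (∑ i, (z i : ℝ) * ((d i : ℝ) * γ)) * α) =
      ∑ i, -((z i : ℝ) *
        (Int.fract (((j0 + d i : ℕ) : ℝ) * γ * α) - Int.fract ((j0 : ℝ) * γ * α))) := by
    rw [Nat.cast_sub hz, Nat.cast_sum, sub_mul, Finset.sum_mul, Finset.sum_mul]
    have : ∑ i, -((z i : ℝ) *
        (Int.fract (((j0 + d i : ℕ) : ℝ) * γ * α) - Int.fract ((j0 : ℝ) * γ * α))) =
        ∑ i, (z i : ℝ) * (⌊((j0 + d i : ℕ) : ℝ) * γ * α⌋₊ : ℝ) -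
          ∑ i, (z i : ℝ) * (⌊(j0 : ℝ) * γ * α⌋₊ : ℝ) - ∑ i, (z i : ℝ) * ((d i : ℝ) * γ) * α := by
      rw [← Finset.sum_sub_distrib, ← Finset.sum_sub_distrib]
      refine Finset.sum_congr rfl fun i _ => ?_
      rw [h1 i, h0]
      push_cast
      ring
    rw [this]
    ring
  rw [e]
  calc _ ≤ ∑ i, |-((z i : ℝ) *
        (Int.fract (((j0 + d i : ℕ) : ℝ) * γ * α) - Int.fract ((j0 : ℝ) * γ * α)))| :=
        Finset.abs_sum_le_sum_abs _ _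
    _ ≤ ∑ i, η * (z i : ℝ) := Finset.sum_le_sum fun i _ => by
        rw [abs_neg, abs_mul, abs_of_nonneg (Nat.cast_nonneg _), mul_comm]
        exact mul_le_mul_of_nonneg_right (he i) (Nat.cast_nonneg _)
    _ ≤ η * Z := by
        rw [← Finset.mul_sum]
        exact mul_le_mul_of_nonneg_left hz' hη

theorem vals_fl_le (x : ℝ) (hx : x ≤ 1) (β : ℕ) : ⌊x * β⌋₊ ≤ β :=
  Nat.floor_le_of_le (by nlinarith [(Nat.cast_nonneg β : (0 : ℝ) ≤ β)])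

omit [IsDomain R] in
theorem vals_split (s : Finset R) (E : R → ℕ) (G : R → ℝ) (h : ∀ q ∈ s, G q ≤ E q) :
    pw s E = pw s (fun q => ⌈G q⌉₊) * pw s (fun q => E q - ⌈G q⌉₊) := by
  rw [← vals_pw_add]
  refine vals_pw_congr _ _ _ fun q hq => ?_
  have := Nat.ceil_le.2 (h q hq)
  omega

theorem vals_sub_le (E : ℕ) (G D : ℝ) (h1 : G ≤ E) (h2 : (E : ℝ) ≤ G + D) :
    ((E - ⌈G⌉₊ : ℕ) : ℝ) ≤ D := by
  rw [Nat.cast_sub (Nat.ceil_le.2 h1)]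
  have := Nat.le_ceil G
  linarith

theorem vals (c : Ctx R) (T : Tri R) (X H : ℝ) (hT : Good c T X H) {n : ℕ} (Z j0 : ℕ)
    (d : Fin n → ℕ) (r0 : R) (r : Fin n → R) (γ η B : ℝ) (hγ : 0 ≤ γ) (hη : 0 ≤ η) (hB : 1 ≤ B)
    (hj0 : (j0 : ℝ) * γ ≤ 1) (hj : ∀ i, ((j0 + d i : ℕ) : ℝ) * γ ≤ 1)
    (hr0 : c.N r0 ≤ B) (hr : ∀ i, c.N (r i) ≤ B)
    (he : ∀ i, ∀ q ∈ T.su, |Int.fract (((j0 + d i : ℕ) : ℝ) * γ * T.α q) -
        Int.fract ((j0 : ℝ) * γ * T.α q)| ≤ η)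
    (hf : ∀ i, ∀ q ∈ T.sw, |Int.fract (((j0 + d i : ℕ) : ℝ) * γ * T.β q) -
        Int.fract ((j0 : ℝ) * γ * T.β q)| ≤ η) :
    ∃ gu gw : R → ℕ, ∀ z ∈ Om n Z, ∃ y : R,
      mono Z (Pv T γ j0 r0) (fun i => Pv T γ (j0 + d i) (r i)) T.w T.u z
          (kp (fun i => (d i : ℝ) * γ) z) = pw T.su gu * pw T.sw gw * y ∧
        c.N y ≤ Real.exp (H + Z * Real.log B + 2 * (η * Z + 1) * Real.log X) := by
  have hB0 : 0 < B := by linarith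
  have hτ0 : ∀ i, 0 ≤ (d i : ℝ) * γ := fun i => by positivity
  have hτ1 : ∀ i, (d i : ℝ) * γ ≤ 1 := fun i => by
    have h1 := hj i
    have h2 : 0 ≤ (j0 : ℝ) * γ := by positivity
    push_cast at h1
    linarith
  obtain ⟨GU, hGU⟩ : ∃ GU : R → ℝ, ∀ q, GU q =
      Z * (⌊(j0 : ℝ) * γ * T.α q⌋₊ : ℝ) + Z * T.α q - η * Z := ⟨_, fun _ => rfl⟩
  obtain ⟨GW, hGW⟩ : ∃ GW : R → ℝ, ∀ q, GW q =
      Z * ((T.β q : ℝ) - (⌊(j0 : ℝ) * γ * T.β q⌋₊ : ℝ)) - T.β q - η * Z := ⟨_, fun _ => rfl⟩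
  refine ⟨fun q => ⌈GU q⌉₊, fun q => ⌈GW q⌉₊, fun z hz => ?_⟩
  have hkZ := kp_le hτ1 hz
  have hk1 := kp_le_real hτ0 z
  have hk2 := lt_kp_add_one (fun i => (d i : ℝ) * γ) z
  have hzZ := mem_Om.1 hz
  generalize kp (fun i => (d i : ℝ) * γ) z = k at hkZ hk1 hk2 ⊢
  obtain ⟨σ, hσ⟩ : ∃ σ : ℝ, σ = ∑ i, (z i : ℝ) * ((d i : ℝ) * γ) := ⟨_, rfl⟩
  rw [← hσ] at hk1 hk2
  obtain ⟨EU, hEU⟩ : ∃ EU : R → ℕ, EU = fun q =>
      (Z - ∑ i, z i) * ⌊(j0 : ℝ) * γ * T.α q⌋₊ +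
        ∑ i, z i * ⌊((j0 + d i : ℕ) : ℝ) * γ * T.α q⌋₊ + (Z - k) * T.α q := ⟨_, rfl⟩
  obtain ⟨EW, hEW⟩ : ∃ EW : R → ℕ, EW = fun q =>
      (Z - ∑ i, z i) * (T.β q - ⌊(j0 : ℝ) * γ * T.β q⌋₊) +
        ∑ i, z i * (T.β q - ⌊((j0 + d i : ℕ) : ℝ) * γ * T.β q⌋₊) + k * T.β q := ⟨_, rfl⟩
  have hU : ∀ q ∈ T.su, GU q ≤ EU q ∧ (EU q : ℝ) ≤ GU q + ((σ - k) * T.α q + 2 * (η * Z + 1)) := by
    intro q hq
    have h1 := abs_le.1 (vals_err Z j0 d γ η hγ hη (T.α q) (fun i => he i q hq) z hzZ)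
    rw [← hσ] at h1
    have h2 : (EU q : ℝ) = ((Z - ∑ i, z i : ℕ) : ℝ) * (⌊(j0 : ℝ) * γ * T.α q⌋₊ : ℝ) +
        ∑ i, (z i : ℝ) * (⌊((j0 + d i : ℕ) : ℝ) * γ * T.α q⌋₊ : ℝ) + ((Z : ℝ) - k) * T.α q := by
      rw [hEU]
      simp only [Nat.cast_add, Nat.cast_mul, Nat.cast_sum, Nat.cast_sub hkZ]
    have h3 : 0 ≤ (σ - k) * T.α q := mul_nonneg (by linarith) (Nat.cast_nonneg _)
    rw [h2, hGU]
    constructor <;> nlinarith [h1.1, h1.2]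
  have hW : ∀ q ∈ T.sw,
      GW q ≤ EW q ∧ (EW q : ℝ) ≤ GW q + ((1 - (σ - k)) * T.β q + 2 * (η * Z + 1)) := by
    intro q hq
    have h1 := abs_le.1 (vals_err Z j0 d γ η hγ hη (T.β q) (fun i => hf i q hq) z hzZ)
    rw [← hσ] at h1
    have h4 : ∑ i, (z i : ℝ) * ((T.β q : ℝ) - (⌊((j0 + d i : ℕ) : ℝ) * γ * T.β q⌋₊ : ℝ)) =
        ((∑ i, z i : ℕ) : ℝ) * T.β q -
          ∑ i, (z i : ℝ) * (⌊((j0 + d i : ℕ) : ℝ) * γ * T.β q⌋₊ : ℝ) := by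
      rw [Nat.cast_sum, Finset.sum_mul, ← Finset.sum_sub_distrib]
      exact Finset.sum_congr rfl fun i _ => by ring
    have h2 : (EW q : ℝ) =
        ((Z - ∑ i, z i : ℕ) : ℝ) * ((T.β q : ℝ) - (⌊(j0 : ℝ) * γ * T.β q⌋₊ : ℝ)) +
        ∑ i, (z i : ℝ) * ((T.β q : ℝ) - (⌊((j0 + d i : ℕ) : ℝ) * γ * T.β q⌋₊ : ℝ)) +
        (k : ℝ) * T.β q := by
      rw [hEW]
      simp only [Nat.cast_add (_ + _), Nat.cast_add (_ * _), Nat.cast_mul, Nat.cast_sum,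
        Nat.cast_sub (vals_fl_le _ hj0 _), Nat.cast_sub (vals_fl_le _ (hj _) _)]
    have h3 : 0 ≤ (1 - (σ - k)) * T.β q := mul_nonneg (by linarith) (Nat.cast_nonneg _)
    have h5 : ((Z - ∑ i, z i : ℕ) : ℝ) * T.β q = Z * T.β q - ((∑ i, z i : ℕ) : ℝ) * T.β q := by
      rw [Nat.cast_sub hzZ]; ring
    rw [h2, h4, hGW]
    constructor <;> nlinarith [h1.1, h1.2]
  refine ⟨((T.εw ^ k * T.εu ^ (Z - k) : Rˣ) : R) *
    ((pw T.su (fun q => EU q - ⌈GU q⌉₊) * pw T.sw (fun q => EW q - ⌈GW q⌉₊)) *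
      (r0 ^ (Z - ∑ i, z i) * ∏ i, r i ^ z i)), ?_, ?_⟩
  · have e1 := vals_split T.su EU GU fun q hq => (hU q hq).1
    have e2 := vals_split T.sw EW GW fun q hq => (hW q hq).1
    have e3 : pw T.su EU = pw T.su (fun q => ⌊(j0 : ℝ) * γ * T.α q⌋₊) ^ (Z - ∑ i, z i) *
        (∏ i, pw T.su (fun q => ⌊((j0 + d i : ℕ) : ℝ) * γ * T.α q⌋₊) ^ z i) *
        pw T.su T.α ^ (Z - k) := by
      rw [vals_pw_sum, vals_pw_pow, vals_pw_pow, ← vals_pw_add, ← vals_pw_add, hEU]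
    have e4 : pw T.sw EW =
        pw T.sw (fun q => T.β q - ⌊(j0 : ℝ) * γ * T.β q⌋₊) ^ (Z - ∑ i, z i) *
        (∏ i, pw T.sw (fun q => T.β q - ⌊((j0 + d i : ℕ) : ℝ) * γ * T.β q⌋₊) ^ z i) *
        pw T.sw T.β ^ k := by
      rw [vals_pw_sum, vals_pw_pow, vals_pw_pow, ← vals_pw_add, ← vals_pw_add, hEW]
    calc _ = ((T.εw ^ k * T.εu ^ (Z - k) : Rˣ) : R) * (pw T.su EU * pw T.sw EW) *
          (r0 ^ (Z - ∑ i, z i) * ∏ i, r i ^ z i) := by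
          rw [e3, e4]
          simp only [mono, Pv, Tri.u, Tri.w, mul_pow, Finset.prod_mul_distrib, Units.val_mul,
            Units.val_pow_eq_pow_val]
          ring
      _ = _ := by rw [e1, e2]; ring
  · have h1 := vals_size c T X H hT (fun q => EU q - ⌈GU q⌉₊) (fun q => EW q - ⌈GW q⌉₊)
      (σ - k) (1 - (σ - k)) (2 * (η * Z + 1)) (by linarith) (by linarith) (by positivity)
      (fun q hq => vals_sub_le _ _ _ (hU q hq).1 (hU q hq).2)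
      (fun q hq => vals_sub_le _ _ _ (hW q hq).1 (hW q hq).2)
    have h2 : c.N (r0 ^ (Z - ∑ i, z i) * ∏ i, r i ^ z i) ≤ Real.exp (Z * Real.log B) := by
      rw [← Real.log_pow, Real.exp_log (pow_pos hB0 _), c.N_mul, c.N_pow, c.N_prod]
      calc c.N r0 ^ (Z - ∑ i, z i) * ∏ i, c.N (r i ^ z i)
          ≤ B ^ (Z - ∑ i, z i) * ∏ i, B ^ z i :=
            mul_le_mul (pow_le_pow_left₀ (c.N_nonneg _) hr0 _)
              (Finset.prod_le_prod (fun i _ => c.N_nonneg _) fun i _ => by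
                rw [c.N_pow]; exact pow_le_pow_left₀ (c.N_nonneg _) (hr i) _)
              (Finset.prod_nonneg fun i _ => c.N_nonneg _) (pow_nonneg hB0.le _)
        _ = B ^ Z := by
            rw [Finset.prod_pow_eq_pow_sum, ← pow_add, Nat.sub_add_cancel hzZ]
    rw [c.N_mul, c.N_unit, one_mul, c.N_mul, add_right_comm, Real.exp_add _ (Z * Real.log B)]
    rw [show σ - k + (1 - (σ - k)) = 1 by ring, one_mul] at h1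
    exact mul_le_mul h1 h2 (c.N_nonneg _) (Real.exp_pos _).le

end Pool.Agent.P.MP_6e34ef_nt.SE
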