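import Pool.Agent.P.MP_6e34ef_nt.SE.Key
import Pool.Agent.P.MP_6e34ef_nt.SE.Multi
import Pool.Agent.P.MP_6e34ef_nt.SE.Vals
import Pool.Agent.P.MP_6e34ef_nt.SY.Inst

set_option autoImplicit false

namespace Pool.Agent.P.MP_6e34ef_nt.SE

open Finset Pool.Agent.P.MP_6e34ef_nt.SY

variable {R : Type} [CommRing R] [IsDomain R]

omit [IsDomain R] in
theorem propN_cop {s : Finset R} {m : R} (h : ∀ q ∈ s, IsCoprime q m) (e : R → ℕ) :
    IsCoprime (pw s e) m :=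
  IsCoprime.prod_left fun q hq => (h q hq).pow_left

omit [IsDomain R] in
theorem propN_cells (c : Ctx R) (K ε : ℝ) (hK : 1 ≤ K) (hε : 0 < ε) :
    ∃ C : ℝ, 1 ≤ C ∧ ∀ (T : Tri R) (X H : ℝ), Good c T X H →
      K ^ (T.su.card + T.sw.card) ≤ C * X ^ ε := by
  obtain ⟨C, hC, h⟩ := pow_card_le c K ε hK hε
  refine ⟨C * C, by nlinarith, fun T X H hT => ?_⟩
  have a1 := h _ hT.nu
  have a2 := h _ hT.nw
  have b1 := c.one_le_rad hT.nu
  have b2 := c.one_le_rad hT.nw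
  have b3 : c.rad T.su ^ ε * c.rad T.sw ^ ε ≤ X ^ ε := by
    rw [← Real.mul_rpow (by linarith) (by linarith)]
    exact Real.rpow_le_rpow (by positivity) hT.rad hε.le
  rw [pow_add]
  calc K ^ T.su.card * K ^ T.sw.card ≤ (C * c.rad T.su ^ ε) * (C * c.rad T.sw ^ ε) :=
        mul_le_mul a1 a2 (by positivity) (by positivity)
    _ = C * C * (c.rad T.su ^ ε * c.rad T.sw ^ ε) := by ring
    _ ≤ C * C * X ^ ε := mul_le_mul_of_nonneg_left b3 (by positivity)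

theorem propN (c : Ctx R) (ω : ℕ) (hω : 1 ≤ ω) (δ ε : ℝ) (hδ : 0 < δ) (hε : 0 < ε) :
    ∃ X0 : ℝ, ∀ (T : Tri R) (X H B : ℝ) (A m : R) (V : ℕ) (BB : Finset R), X0 ≤ X →
      Good c T X H → X ^ ε ≤ H → H ≤ 6 * V * Real.log X → V * Real.log X ≤ H →
      1 ≤ B → m ≠ 0 → A ≠ 0 → A ∣ m ^ V → A ∣ T.u - T.w →
      (∀ q ∈ T.su, IsCoprime q m) → (∀ q ∈ T.sw, IsCoprime q m) →
      (∀ r ∈ BB, r ≠ 0 ∧ c.N r ≤ B) →
      (∀ r1 ∈ BB, ∀ r2 ∈ BB, m ∣ r1 - r2 → r1 = r2) →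
      c.N m ^ c.d * X ^ ε ≤ H * BB.card →
      ω * Real.log (c.N A) ≤ H + (ω + 2) * V * Real.log B + δ * H := by
  obtain ⟨C1, C2, hC1, hkey⟩ := key c ω hω
  obtain ⟨n, hn⟩ : ∃ n : ℕ, n = 2 * ω * (ω + 2) := ⟨_, rfl⟩
  have hn1 : 1 ≤ n := by rw [hn]; nlinarith
  have hωR : (1 : ℝ) ≤ ω := by exact_mod_cast hω
  have hnR : (1 : ℝ) ≤ n := by exact_mod_cast hn1
  have hC1R : (1 : ℝ) ≤ C1 := by exact_mod_cast hC1
  obtain ⟨ζ, hζ⟩ : ∃ ζ : ℝ, ζ = ω + 2 := ⟨_, rfl⟩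
  have hζ3 : 3 ≤ ζ := by rw [hζ]; linarith
  obtain ⟨K, hK1, hK2⟩ : ∃ K : ℕ, 1 ≤ K ∧ 8 * ζ / δ ≤ K :=
    ⟨⌈8 * ζ / δ⌉₊ + 1, by omega, by push_cast; linarith [Nat.le_ceil (8 * ζ / δ)]⟩
  have hKR : (1 : ℝ) ≤ K := by exact_mod_cast hK1
  obtain ⟨C, hC0, hC⟩ := propN_cells c K (ε / 2) hKR (by positivity)
  obtain ⟨M, hM⟩ : ∃ M : ℝ, M = (((2 * C1 + 1) ^ n + 1 : ℕ) : ℝ) := ⟨_, rfl⟩
  have hM0 : 0 < M := by rw [hM]; positivity
  have e1 := ev_log (M * C * c.C0 * (12 * n * C1 * C1)) (ε / 2) (by positivity)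
  have e2 := ev_log (8 / δ) ε hε
  have e3 := ev_const (28 * ζ / δ)
  have e4 := ev_log (6 * (n + 2 * C1)) ε hε
  have e5 := ev_const (2 * C2 + 1)
  obtain ⟨X0, hX0⟩ := Filter.eventually_atTop.1
    (e1.and (e2.and (e3.and (e4.and (e5.and (Filter.eventually_ge_atTop (1 : ℝ)))))))
  refine ⟨X0, fun T X H B A m V BB hX hT hH hV1 hV2 hB1 hm hA hAm hAx hcu hcw hBB hinc hcard => ?_⟩
  obtain ⟨f1, f2, f3, f4, f5, hX1⟩ := hX0 X hX
  set L := Real.log X with hL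
  have hC2 : (0 : ℝ) ≤ C2 := Nat.cast_nonneg _
  have hL1 : 1 ≤ L := by linarith
  have hL0 : 0 < L := by linarith
  have hVn : (n : ℝ) + 2 * C1 ≤ V := by
    have h1 : 6 * ((n : ℝ) + 2 * C1) * L ≤ 6 * V * L := f4.trans (hH.trans hV1)
    have h2 := le_of_mul_le_mul_right h1 hL0
    linarith
  have hV0 : (0 : ℝ) < V := by linarith
  have hH2 : 3 ≤ H := by nlinarith
  have hH0 : 0 < H := by linarith
  set γ : ℝ := 6 * C1 * L / H with hγ
  have hγ0 : 0 < γ := by positivity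
  set J : ℕ := ⌊1 / (2 * n * C1 * γ)⌋₊ with hJ
  have hden : 0 < 2 * (n : ℝ) * C1 * γ := by positivity
  have hJ1 : (J : ℝ) ≤ 1 / (2 * n * C1 * γ) := Nat.floor_le (by positivity)
  have hJ2 : 1 / (2 * n * C1 * γ) < J + 1 := Nat.lt_floor_add_one _
  have hJ3 : 2 * (n : ℝ) * C1 * (J * γ) ≤ 1 := by
    rw [le_div_iff₀ hden] at hJ1; linarith
  have hnC : (1 : ℝ) ≤ 2 * n * C1 := by nlinarith
  have hJ4 : (J : ℝ) * γ ≤ 1 := by
    have : 0 ≤ (J : ℝ) * γ := by positivity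
    nlinarith
  have hNm : 0 < c.N m ^ c.d := pow_pos (c.N_pos hm) _
  have hXe : 0 < X ^ (ε / 2) := by positivity
  have hXee : X ^ ε = X ^ (ε / 2) * X ^ (ε / 2) := by
    rw [← Real.rpow_add (by linarith)]; congr 1; ring
  have hpig : M * ((K : ℝ) ^ (T.su.card + T.sw.card) * (c.C0 * c.N m ^ c.d)) ≤
      (J + 1) * BB.card := by
    have g1 := hC T X H hT
    have g2 : H < (J + 1) * (12 * n * C1 * C1 * L) := by
      rw [div_lt_iff₀ hden, hγ] at hJ2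
      have : ((J : ℝ) + 1) * (2 * n * C1 * (6 * C1 * L / H)) =
          (J + 1) * (12 * n * C1 * C1 * L) / H := by ring
      rw [this, lt_div_iff₀ hH0] at hJ2
      linarith
    have hD : 0 < 12 * (n : ℝ) * C1 * C1 * L := by positivity
    apply le_of_mul_le_mul_right _ hD
    have hC0' := c.C0_pos
    calc M * ((K : ℝ) ^ (T.su.card + T.sw.card) * (c.C0 * c.N m ^ c.d)) * (12 * n * C1 * C1 * L)
        ≤ M * (C * X ^ (ε / 2) * (c.C0 * c.N m ^ c.d)) * (12 * n * C1 * C1 * L) := by gcongr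
      _ = c.N m ^ c.d * (X ^ (ε / 2) * (M * C * c.C0 * (12 * n * C1 * C1) * L)) := by ring
      _ ≤ c.N m ^ c.d * (X ^ (ε / 2) * X ^ (ε / 2)) := by gcongr
      _ ≤ H * BB.card := by rw [← hXee]; exact hcard
      _ ≤ (J + 1) * (12 * n * C1 * C1 * L) * BB.card := by gcongr
      _ = (J + 1) * BB.card * (12 * n * C1 * C1 * L) := by ring
  subst hn
  rw [hM] at hpig
  obtain ⟨j0, d, r0, r, hr0, hr, hj0, hj, hrel, hdvd, he, hf⟩ :=
    multi c T m hm hcu hcw BB hinc K J C1 (2 * ω * (ω + 2)) hK1 γ hpig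
  have hle : ∀ j : ℕ, j ≤ J → (j : ℝ) * γ ≤ 1 := fun j h =>
    (mul_le_mul_of_nonneg_right (by exact_mod_cast h) hγ0.le).trans hJ4
  have hdJ : ∀ i, d i ≤ J := fun i => le_trans (Nat.le_add_left _ _) (hj i)
  have hZ : (((ω + 2) * V : ℕ) : ℝ) = ζ * V := by rw [hζ]; push_cast; ring
  have hVZ : (V : ℝ) ≤ ζ * V := by nlinarith
  have hnr : NonRes C1 ((ω + 2) * V) (fun i => (d i : ℝ) * γ) := by
    refine nonRes_of d γ hγ0.le hdJ hrel ?_ hJ3 ?_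
    · rw [hZ]
      have g1 : (C1 : ℝ) ≤ V * γ := by
        rw [hγ, mul_div_assoc', le_div_iff₀ hH0]
        have : (C1 : ℝ) * H ≤ C1 * (6 * V * L) := by gcongr
        linarith
      exact g1.trans (by gcongr)
    · have : ((2 * C1 : ℕ) : ℝ) ≤ (((ω + 2) * V : ℕ) : ℝ) := by
        rw [hZ]; push_cast; linarith
      exact_mod_cast this
  have hKi0 : 0 ≤ 1 / (K : ℝ) := by positivity
  obtain ⟨gu, gw, hval⟩ := vals c T X H hT ((ω + 2) * V) j0 d r0 r γ (1 / K) B hγ0.le hKi0 hB1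
    (hle _ hj0) (fun i => hle _ (hj i)) (hBB r0 hr0).2 (fun i => (hBB _ (hr i)).2) he hf
  have hu0 : T.u ≠ 0 := mul_ne_zero T.εu.ne_zero (pw_ne_zero hT.nu _)
  have hw0 : T.w ≠ 0 := mul_ne_zero T.εw.ne_zero (pw_ne_zero hT.nw _)
  have hPv : ∀ (j : ℕ) (x : R), x ≠ 0 → Pv T γ j x ≠ 0 := fun j x hx =>
    mul_ne_zero (mul_ne_zero (pw_ne_zero hT.nu _) (pw_ne_zero hT.nw _)) hx
  have huw : IsCoprime T.u T.w := by
    unfold Tri.u Tri.w
    rw [isCoprime_mul_unit_left_left T.εu.isUnit, isCoprime_mul_unit_left_right T.εw.isUnit]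
    exact propN_cop (fun q hq => (propN_cop (fun q' hq' => (hT.cop q hq q' hq').symm) _).symm) _
  have hEA : IsCoprime (pw T.su gu * pw T.sw gw) A :=
    (((propN_cop hcu gu).mul_left (propN_cop hcw gw)).pow_right (n := V)).of_isCoprime_of_dvd_right
      hAm
  have hbig : (C2 : ℝ) * V < max (Real.log (c.N T.u)) (Real.log (c.N T.w)) := by
    refine lt_of_lt_of_le ?_ hT.big
    have g1 : (2 * C2 + 1) * (V : ℝ) ≤ H := le_trans (by nlinarith) hV2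
    nlinarith
  have hcore := hkey V (fun i => (d i : ℝ) * γ) A m (Pv T γ j0 r0) T.w T.u _
    (fun i => Pv T γ (j0 + d i) (r i)) _
    (by have : ((2 * ω * (ω + 2) : ℕ) : ℝ) ≤ V := by linarith
        exact_mod_cast this)
    (fun i => by positivity) (fun i => hle _ (hdJ i)) hnr (hPv _ _ (hBB r0 hr0).1)
    (fun i => hPv _ _ (hBB _ (hr i)).1) hu0 hw0 huw hbig hAm hdvd hAx hEA hval
  have hlog := Real.log_le_log (pow_pos (c.N_pos hA) _) hcore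
  rw [Real.log_pow, Real.log_mul (by positivity) (Real.exp_pos _).ne', Real.log_exp,
    Real.log_pow, Nat.cast_mul 7, hZ] at hlog
  push_cast at hlog
  have l2 : Real.log 2 ≤ 1 := by
    have := Real.log_le_sub_one_of_pos (show (0 : ℝ) < 2 by norm_num); linarith
  have t1 : 7 * (ζ * V) * Real.log 2 ≤ δ * H / 4 := by
    have k1 : 7 * (ζ * V) * Real.log 2 ≤ 7 * (ζ * V) :=
      mul_le_of_le_one_right (by positivity) l2
    rw [div_le_iff₀ hδ] at f3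
    have k2 : (V : ℝ) * (28 * ζ) ≤ V * (L * δ) := by gcongr
    have k3 : δ * (V * L) ≤ δ * H := by gcongr
    nlinarith
  have t2 : 2 * (1 / (K : ℝ) * (ζ * V)) * L ≤ δ * H / 4 := by
    rw [div_le_iff₀ hδ] at hK2
    have k1 : 2 * (1 / (K : ℝ) * (ζ * V)) * L = 2 * ζ * (V * L) / K := by ring
    rw [k1, div_le_iff₀ (by linarith)]
    calc 2 * ζ * (V * L) ≤ 2 * ζ * H := by gcongr
      _ = (8 * ζ) * (H / 4) := by ring
      _ ≤ (K * δ) * (H / 4) := by gcongr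
      _ = δ * H / 4 * K := by ring
  have t3 : 2 * L ≤ δ * H / 4 := by
    have k1 : 8 / δ * L ≤ H := f2.trans hH
    rw [div_mul_eq_mul_div, div_le_iff₀ hδ] at k1
    linarith
  have t4 : 0 ≤ δ * H := by positivity
  rw [← hζ]
  nlinarith

end Pool.Agent.P.MP_6e34ef_nt.SE
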