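import Pool.Agent.P.MP_6e34ef_nt.SE.PropN

set_option autoImplicit false

namespace Pool.Agent.P.MP_6e34ef_nt.SE

open Finset Pool.Agent.P.MP_6e34ef_nt.SY

variable {R : Type} [CommRing R] [IsDomain R]

omit [IsDomain R] in
theorem side_dvd (s : Finset R) (v : R → ℕ) (V : ℕ) :
    pw s (fun q => v q / V) ^ V ∣ pw s v := by
  unfold pw
  rw [← prod_pow]
  refine prod_dvd_prod_of_dvd _ _ fun q _ => ?_
  rw [← pow_mul]
  exact pow_dvd_pow _ (Nat.div_mul_le_self _ _)

omit [IsDomain R] in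
theorem side_low (c : Ctx R) {s : Finset R} (hs : ∀ p ∈ s, p ≠ 0) (v : R → ℕ) {V : ℕ}
    (hV : 0 < V) :
    Real.log (c.N (pw s v)) - V * Real.log (c.rad s) ≤
      V * Real.log (c.N (pw s fun q => v q / V)) := by
  rw [c.log_N_pw hs, c.log_N_pw hs, c.log_rad hs, mul_sum, mul_sum, ← sum_sub_distrib]
  refine sum_le_sum fun q hq => ?_
  have h0 := c.log_N_nonneg (hs q hq)
  have h1 : v q ≤ V * (v q / V) + V := by
    have := Nat.div_add_mod (v q) V
    have := Nat.mod_lt (v q) hV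
    omega
  have h2 : (v q : ℝ) ≤ V * ((v q / V : ℕ) : ℝ) + V := by exact_mod_cast h1
  nlinarith [mul_le_mul_of_nonneg_right h2 h0]

theorem side (c : Ctx R) (ε : ℝ) (hε : 0 < ε) :
    ∃ X0 : ℝ, ∀ (T : Tri R) (X H : ℝ) (s : Finset R) (v : R → ℕ) (εx : Rˣ), X0 ≤ X →
      Good c T X H → T.u - T.w = (εx : R) * pw s v → (∀ p ∈ s, p ≠ 0) →
      H ≤ Real.log (c.N (T.u - T.w)) → Real.log (c.N (T.u - T.w)) ≤ H →
      (∀ p ∈ s, ∀ q ∈ T.su, IsCoprime q p) → (∀ p ∈ s, ∀ q ∈ T.sw, IsCoprime q p) →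
      c.rad s ≤ X → H ≤ X ^ ε := by
  obtain ⟨S0, hS0⟩ := exists_nat_ge (18 * (c.d : ℝ) / ε)
  obtain ⟨S, hS1, hSd⟩ : ∃ S : ℕ, 1 ≤ S ∧ 18 * (c.d : ℝ) ≤ ε * S := by
    refine ⟨S0 + 1, by omega, ?_⟩
    rw [div_le_iff₀ hε] at hS0
    push_cast
    nlinarith
  have hSR : (1 : ℝ) ≤ S := by exact_mod_cast hS1
  have hSpos : (0 : ℝ) < S := by linarith
  obtain ⟨X0, hX0⟩ := propN c (5 * S) (by omega) (1 / 2) (ε / 3) (by norm_num) (by positivity)
  obtain ⟨X1, hX1⟩ := Filter.eventually_atTop.1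
    (((ev_const S).and ((ev_const (3 * Real.log c.C0 / ε)).and (ev_log 6 ε hε))).and
      ((Filter.eventually_ge_atTop X0).and (Filter.eventually_ge_atTop (1 : ℝ))))
  refine ⟨X1, ?_⟩
  intro T X H s v εx hX hG hx hs hlo hhi hcu hcw hrad
  obtain ⟨⟨hLS, hLC, hL6⟩, hX0', hX1'⟩ := hX1 X hX
  by_contra hcon
  rw [not_le] at hcon
  have hXpos : 0 < X := by linarith
  set L := Real.log X with hL
  have hLpos : 0 < L := by linarith
  have hH6 : 6 * L ≤ H := by linarith
  have hHpos : 0 < H := by linarith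
  obtain ⟨V, hV1, hV2⟩ : ∃ V : ℕ, (V : ℝ) * (3 * L) ≤ H ∧ H < (V + 1) * (3 * L) := by
    refine ⟨⌊H / (3 * L)⌋₊, ?_, ?_⟩
    · rw [← le_div_iff₀ (by positivity)]
      exact Nat.floor_le (by positivity)
    · rw [← div_lt_iff₀ (by positivity)]
      exact Nat.lt_floor_add_one _
  have hVR : (1 : ℝ) < V := by
    by_contra h
    rw [not_lt] at h
    nlinarith
  have hVpos : 0 < V := by exact_mod_cast (lt_trans one_pos hVR)
  have hHV : H ≤ 6 * V * L := by nlinarith
  have hVH : V * L ≤ H := by nlinarith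
  set m := pw s (fun q => v q / V) with hm
  have hm0 : m ≠ 0 := pw_ne_zero hs _
  have hNm : 0 < c.N m := c.N_pos hm0
  have hNm1 : 1 ≤ c.N m := c.one_le_N hm0
  have huw : T.u - T.w ≠ 0 := sub_ne_zero.2 hG.ne
  have hdvd : m ^ V ∣ T.u - T.w := by
    rw [hx]
    exact Dvd.dvd.mul_left (side_dvd s v V) _
  set l := Real.log (c.N m) with hl
  have hlA : Real.log (c.N (m ^ V)) = V * l := by rw [c.N_pow, Real.log_pow]
  have hvl : V * l ≤ H := by
    rw [← hlA]
    exact (Real.log_le_log (c.N_pos (pow_ne_zero _ hm0)) (c.N_le_of_dvd huw hdvd)).trans hhi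
  have hvl2 : 2 * H / 3 ≤ V * l := by
    have h1 := side_low c hs v hVpos
    have h2 : Real.log (c.N (pw s v)) = Real.log (c.N (T.u - T.w)) := by
      rw [hx, c.N_mul, c.N_unit, one_mul]
    have h3 : Real.log (c.rad s) ≤ L :=
      Real.log_le_log (lt_of_lt_of_le one_pos (c.one_le_rad hs)) hrad
    have h4 : (V : ℝ) * Real.log (c.rad s) ≤ V * L :=
      mul_le_mul_of_nonneg_left h3 (Nat.cast_nonneg _)
    rw [h2] at h1
    linarith
  have hl1 : 2 * L ≤ l := by
    have : (V : ℝ) * (2 * L) ≤ V * l := by linarith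
    exact le_of_mul_le_mul_left this (by linarith)
  have hl2 : l ≤ 6 * L := by
    have : (V : ℝ) * l ≤ V * (6 * L) := by linarith
    exact le_of_mul_le_mul_left this (by linarith)
  have hinv0 : 0 < 1 / (S : ℝ) := by positivity
  have hinv : 1 / (S : ℝ) ≤ 1 := by rw [div_le_one hSpos]; exact hSR
  set B := c.N m ^ ((1 : ℝ) - 1 / S) with hB
  have hBpos : 0 < B := by positivity
  have hlB : Real.log B = (1 - 1 / S) * l := by rw [hB, Real.log_rpow hNm]
  have hB1 : 1 ≤ B := Real.one_le_rpow hNm1 (by linarith)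
  have h2B : 2 * B < c.N m := by
    rw [← Real.log_lt_log_iff (by positivity) hNm, Real.log_mul (by norm_num) hBpos.ne', hlB]
    have h2 : Real.log 2 < 1 := by
      have := Real.log_two_lt_d9
      linarith
    have h3 : 1 ≤ 1 / (S : ℝ) * l := by
      rw [one_div_mul_eq_div, le_div_iff₀ hSpos]
      linarith
    linarith
  obtain ⟨BB, hBB, hcard⟩ := c.many B hB1
  have hcm : ∀ q : R, (∀ p ∈ s, IsCoprime q p) → IsCoprime q m := fun q hq =>
    IsCoprime.prod_right fun p hp => (hq p hp).pow_right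
  have key := hX0 T X H B (m ^ V) m V BB hX0' hG
    ((Real.rpow_le_rpow_of_exponent_le hX1' (by linarith)).trans hcon.le)
    hHV hVH hB1 hm0 (pow_ne_zero _ hm0) dvd_rfl hdvd
    (fun q hq => hcm q fun p hp => hcu p hp q hq)
    (fun q hq => hcm q fun p hp => hcw p hp q hq) hBB ?_ ?_
  · rw [hlA, hlB] at key
    push_cast at key
    have hvl0 : 0 ≤ V * l := by linarith
    have e1 : (5 * (S : ℝ) + 2) * V * ((1 - 1 / S) * l) =
        (5 * S - 3 - 2 * (1 / S)) * (V * l) := by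
      field_simp
      ring
    rw [e1] at key
    linarith [mul_nonneg hinv0.le hvl0]
  · intro r1 hr1 r2 hr2 hpr
    by_contra hne
    have h1 := c.N_le_of_dvd (sub_ne_zero.2 hne) hpr
    have h2 : c.N r1 ≤ B := (hBB r1 hr1).2
    have h3 : c.N r2 ≤ B := (hBB r2 hr2).2
    linarith [c.N_sub_le r1 r2]
  · have hC := c.C0_pos
    have hd0 : (0 : ℝ) ≤ c.d := Nat.cast_nonneg _
    have h1 : c.N m ^ c.d * X ^ (ε / 3) * c.C0 ≤ X ^ ε * B ^ c.d := by
      rw [← Real.log_le_log_iff (by positivity) (by positivity),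
        Real.log_mul (by positivity) hC.ne', Real.log_mul (by positivity) (by positivity),
        Real.log_mul (by positivity) (by positivity), Real.log_pow, Real.log_pow,
        Real.log_rpow hXpos, Real.log_rpow hXpos, hlB]
      rw [div_le_iff₀ hε] at hLC
      have h4 : (c.d : ℝ) * (1 / S) ≤ ε / 18 := by
        rw [mul_one_div, div_le_iff₀ hSpos]
        linarith
      have h5 : (c.d : ℝ) * (1 / S) * l ≤ ε / 18 * (6 * L) :=
        mul_le_mul h4 hl2 (by linarith) (by positivity)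
      rw [← hl, ← hL]
      linarith
    have h2 : X ^ ε * B ^ c.d ≤ H * (c.C0 * BB.card) :=
      mul_le_mul hcon.le hcard (by positivity) hHpos.le
    have h3 : c.N m ^ c.d * X ^ (ε / 3) * c.C0 ≤ H * BB.card * c.C0 := by linarith
    exact le_of_mul_le_mul_right h3 hC

end Pool.Agent.P.MP_6e34ef_nt.SE
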